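import Mathlib

/-! Elementary symmetric sums and Bonferroni inequalities. -/

set_option autoImplicit false

namespace Pool.CI63

open Finset

variable {ι : Type*} [DecidableEq ι]

/-- elementary symmetric sums -/
def es (p : ι → ℝ) (s : Finset ι) (k : ℕ) : ℝ := ∑ H ∈ s.powersetCard k, ∏ i ∈ H, p i

/-- alternating partial sums -/
def bs (p : ι → ℝ) (s : Finset ι) (K : ℕ) : ℝ := ∑ k ∈ range (K + 1), (-1 : ℝ) ^ k * es p s k

@[simp] theorem es_zero (p : ι → ℝ) (s : Finset ι) : es p s 0 = 1 := by simp [es]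

theorem es_empty_succ (p : ι → ℝ) (k : ℕ) : es p ∅ (k + 1) = 0 := by
  simp [es, Finset.powersetCard_eq_empty.2]

theorem es_insert (p : ι → ℝ) (s : Finset ι) (a : ι) (ha : a ∉ s) (k : ℕ) :
    es p (insert a s) (k + 1) = es p s (k + 1) + p a * es p s k := by
  unfold es
  rw [Finset.powersetCard_succ_insert ha, Finset.sum_union, Finset.sum_image, Finset.mul_sum]
  · congr 1
    refine Finset.sum_congr rfl (fun H hH => ?_)
    have : a ∉ H := fun h => ha ((Finset.mem_powersetCard.1 hH).1 h)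
    rw [Finset.prod_insert this]
  · intro H hH H' hH' h
    have h1 : a ∉ H := fun h => ha ((Finset.mem_powersetCard.1 hH).1 h)
    have h2 : a ∉ H' := fun h => ha ((Finset.mem_powersetCard.1 hH').1 h)
    rw [← Finset.erase_insert h1, h, Finset.erase_insert h2]
  · rw [Finset.disjoint_left]
    intro H hH hH'
    obtain ⟨H', _, rfl⟩ := Finset.mem_image.1 hH'
    exact ha ((Finset.mem_powersetCard.1 hH).1 (Finset.mem_insert_self _ _))

theorem es_nonneg (p : ι → ℝ) (hp : ∀ i, 0 ≤ p i) (s : Finset ι) (k : ℕ) : 0 ≤ es p s k :=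
  Finset.sum_nonneg (fun _ _ => Finset.prod_nonneg (fun i _ => hp i))

theorem bs_succ (p : ι → ℝ) (s : Finset ι) (K : ℕ) :
    bs p s (K + 1) = bs p s K + (-1 : ℝ) ^ (K + 1) * es p s (K + 1) := by
  unfold bs
  rw [Finset.sum_range_succ]

@[simp] theorem bs_zero (p : ι → ℝ) (s : Finset ι) : bs p s 0 = 1 := by simp [bs]

theorem bs_insert (p : ι → ℝ) (s : Finset ι) (a : ι) (ha : a ∉ s) (K : ℕ) :
    bs p (insert a s) (K + 1) = bs p s (K + 1) - p a * bs p s K := by
  induction K with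
  | zero =>
    rw [bs_succ, bs_succ, es_insert p s a ha]
    simp
    ring
  | succ K ih =>
    rw [bs_succ, ih, bs_succ p s (K + 1), bs_succ p s K, es_insert p s a ha]
    ring

theorem bs_empty (p : ι → ℝ) (K : ℕ) : bs p ∅ K = 1 := by
  induction K with
  | zero => simp
  | succ K ih => rw [bs_succ, ih, es_empty_succ]; simp

/-- Bonferroni inequalities -/
theorem bonf (p : ι → ℝ) (hp : ∀ i, 0 ≤ p i) (hp1 : ∀ i, p i ≤ 1) (s : Finset ι) :
    ∀ K : ℕ, 0 ≤ (-1 : ℝ) ^ K * (bs p s K - ∏ i ∈ s, (1 - p i)) := by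
  induction s using Finset.induction_on with
  | empty => intro K; simp [bs_empty]
  | insert a s ha ih =>
    intro K
    rw [Finset.prod_insert ha]
    cases K with
    | zero =>
      have h1 := ih 0
      simp only [pow_zero, one_mul, bs_zero] at h1 ⊢
      have h2 : 0 ≤ ∏ i ∈ s, (1 - p i) := Finset.prod_nonneg (fun i _ => by linarith [hp1 i])
      nlinarith [hp a, hp1 a]
    | succ K =>
      have h1 := ih (K + 1)
      have h2 := mul_nonneg (hp a) (ih K)
      rw [bs_insert p s a ha]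
      have h3 : (-1 : ℝ) ^ (K + 1) * (bs p s (K + 1) - p a * bs p s K
          - (1 - p a) * ∏ i ∈ s, (1 - p i))
          = (-1 : ℝ) ^ (K + 1) * (bs p s (K + 1) - ∏ i ∈ s, (1 - p i))
            + p a * ((-1 : ℝ) ^ K * (bs p s K - ∏ i ∈ s, (1 - p i))) := by
        rw [pow_succ]; ring
      rw [h3]
      linarith

theorem pow_bern (a b : ℝ) (ha : 0 ≤ a) (hb : 0 ≤ b) (n : ℕ) :
    a ^ (n + 1) + (n + 1) * a ^ n * b ≤ (a + b) ^ (n + 1) := by
  induction n with
  | zero => simp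
  | succ n ih =>
    have h1 : 0 ≤ a ^ n := pow_nonneg ha n
    have h2 := mul_le_mul_of_nonneg_right ih (add_nonneg ha hb)
    rw [pow_succ (a + b) (n + 1)]
    refine le_trans ?_ h2
    have h3 : 0 ≤ (n + 1) * a ^ n * b * b := by positivity
    push_cast
    ring_nf
    ring_nf at h3
    nlinarith

theorem es_le (p : ι → ℝ) (hp : ∀ i, 0 ≤ p i) (s : Finset ι) :
    ∀ k : ℕ, (k.factorial : ℝ) * es p s k ≤ (∑ i ∈ s, p i) ^ k := by
  induction s using Finset.induction_on with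
  | empty =>
    intro k
    cases k with
    | zero => simp
    | succ k => rw [es_empty_succ]; simp
  | insert a s ha ih =>
    intro k
    cases k with
    | zero => simp
    | succ k =>
      rw [es_insert p s a ha, Finset.sum_insert ha]
      have h0 : 0 ≤ ∑ i ∈ s, p i := Finset.sum_nonneg (fun i _ => hp i)
      have h1 := ih (k + 1)
      have h2 := ih k
      have h3 := pow_bern (∑ i ∈ s, p i) (p a) h0 (hp a) k
      rw [add_comm (p a)]
      refine le_trans ?_ h3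
      rw [mul_add]
      refine add_le_add h1 ?_
      rw [Nat.factorial_succ]
      push_cast
      have h4 := mul_le_mul_of_nonneg_left h2 (mul_nonneg (by positivity : (0:ℝ) ≤ (k:ℝ) + 1) (hp a))
      calc ((k:ℝ) + 1) * (k.factorial : ℝ) * (p a * es p s k)
          = ((k:ℝ) + 1) * p a * ((k.factorial : ℝ) * es p s k) := by ring
        _ ≤ ((k:ℝ) + 1) * p a * (∑ i ∈ s, p i) ^ k := h4
        _ = _ := by ring

theorem prod_ge_exp (p : ι → ℝ) (hp : ∀ i, 0 ≤ p i) (hp1 : ∀ i, p i ≤ 1 / 2) (s : Finset ι) :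
    Real.exp (-2 * ∑ i ∈ s, p i) ≤ ∏ i ∈ s, (1 - p i) := by
  rw [Finset.mul_sum, Real.exp_sum]
  refine Finset.prod_le_prod (fun i _ => (Real.exp_pos _).le) (fun i _ => ?_)
  have h1 : 1 + 2 * p i ≤ Real.exp (2 * p i) := by
    have := Real.add_one_le_exp (2 * p i); linarith
  have h2 : Real.exp (-2 * p i) = (Real.exp (2 * p i))⁻¹ := by
    rw [← Real.exp_neg]; ring_nf
  rw [h2]
  have h3 : 0 < 1 + 2 * p i := by linarith [hp i]
  calc (Real.exp (2 * p i))⁻¹ ≤ (1 + 2 * p i)⁻¹ := inv_anti₀ h3 h1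
    _ ≤ 1 - p i := by
      rw [inv_le_comm₀ h3 (by linarith [hp1 i]), ← one_div, div_le_iff₀ (by linarith [hp1 i])]
      nlinarith [hp i, hp1 i]

/-- the tail term -/
theorem es_tail (p : ι → ℝ) (hp : ∀ i, 0 ≤ p i) (s : Finset ι) (t : ℕ) (ht : 1 ≤ t)
    (h : ∑ i ∈ s, p i ≤ 2 * t / Real.exp 3) :
    es p s (2 * t) ≤ Real.exp (-4 * t) := by
  have h0 : 0 ≤ ∑ i ∈ s, p i := Finset.sum_nonneg (fun i _ => hp i)
  have h1 := es_le p hp s (2 * t)
  have h2 : ((2 * t : ℕ) : ℝ) ^ (2 * t) / ((2 * t).factorial : ℝ) ≤ Real.exp ((2 * t : ℕ) : ℝ) :=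
    Real.pow_div_factorial_le_exp _ (by positivity) _
  have hf : (0 : ℝ) < ((2 * t).factorial : ℝ) := by positivity
  have ht' : (0 : ℝ) < (t : ℝ) := by exact_mod_cast ht
  have h3 : (∑ i ∈ s, p i) ^ (2 * t) ≤ (2 * t / Real.exp 3) ^ (2 * t) :=
    pow_le_pow_left₀ h0 h _
  have h4 : es p s (2 * t) ≤ (2 * t / Real.exp 3) ^ (2 * t) / ((2 * t).factorial : ℝ) := by
    rw [le_div_iff₀ hf]
    calc es p s (2 * t) * ((2 * t).factorial : ℝ) = ((2 * t).factorial : ℝ) * es p s (2 * t) := by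
          ring
      _ ≤ _ := h1.trans h3
  refine h4.trans ?_
  have h5 : (2 * (t : ℝ) / Real.exp 3) ^ (2 * t) / ((2 * t).factorial : ℝ)
      = (((2 * t : ℕ) : ℝ) ^ (2 * t) / ((2 * t).factorial : ℝ)) * (Real.exp (-3)) ^ (2 * t) := by
    rw [Real.exp_neg]
    push_cast
    rw [div_pow, inv_pow]
    ring
  rw [h5]
  calc (((2 * t : ℕ) : ℝ) ^ (2 * t) / ((2 * t).factorial : ℝ)) * (Real.exp (-3)) ^ (2 * t)
      ≤ Real.exp ((2 * t : ℕ) : ℝ) * (Real.exp (-3)) ^ (2 * t) :=
        mul_le_mul_of_nonneg_right h2 (by positivity)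
    _ = Real.exp (-4 * t) := by
        rw [← Real.exp_nat_mul, ← Real.exp_add]
        congr 1
        push_cast
        ring

end Pool.CI63
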