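import Pool.Agent.LibCI.Core

/-! Large gaps from the asymptotics of the tuples. -/

set_option autoImplicit false

namespace Pool.CI63

open Finset Filter

/-- the hypothesis on the main term: at most `C₁ h / log n` in the windows `(n, n+h]` -/
def WinBound (p : ℕ → ℝ) (C₁ : ℝ) : Prop :=
  ∀ᶠ n : ℕ in atTop, ∀ h : ℕ, Real.log n * √(Real.log n) ≤ h → (h : ℝ) ≤ Real.log n ^ 2 →
    ∑ j ∈ Icc 1 h, p (n + j) ≤ C₁ * h / Real.log n

open Classical in
/-- the tuples of `A` of size up to `log x` in `[1, log^2 x]` have the asymptotics given by `p`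
with the error `C x^(1-c)` -/
def Tuples (A : Set ℕ) (p : ℕ → ℝ) (c C : ℝ) : Prop :=
  ∀ᶠ x : ℕ in atTop, ∀ H : Finset ℕ, (∀ j ∈ H, 1 ≤ j ∧ (j : ℝ) ≤ Real.log x ^ 2) →
    (H.card : ℝ) ≤ Real.log x →
    |(((Ioc 0 x).filter (fun n => ∀ j ∈ H, n + j ∈ A)).card : ℝ)
      - ∑ n ∈ Ioc 0 x, ∏ j ∈ H, p (n + j)| ≤ C * (x : ℝ) ^ (1 - c)

theorem sqrt_facts (x : ℕ) (hx : 64 ≤ x) :
    1 ≤ Nat.sqrt x ∧ Nat.sqrt x ≤ x ∧ (x : ℝ) / 2 ≤ ((x - Nat.sqrt x : ℕ) : ℝ) ∧
      Real.log x / 3 ≤ Real.log (Nat.sqrt x) := by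
  have h1 : Nat.sqrt x * Nat.sqrt x ≤ x := Nat.sqrt_le x
  have h2 : x < (Nat.sqrt x + 1) * (Nat.sqrt x + 1) := Nat.lt_succ_sqrt x
  have h3 : 8 ≤ Nat.sqrt x := by
    rw [Nat.le_sqrt]; omega
  have h4 : 2 * Nat.sqrt x ≤ x := by nlinarith
  refine ⟨by omega, Nat.sqrt_le_self x, ?_, ?_⟩
  · rw [Nat.cast_sub (Nat.sqrt_le_self x)]
    have : (2 : ℝ) * (Nat.sqrt x : ℝ) ≤ x := by exact_mod_cast h4
    linarith
  · have hy : (8 : ℝ) ≤ (Nat.sqrt x : ℝ) := by exact_mod_cast h3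
    have hx0 : (0 : ℝ) < x := by positivity
    have h5 : (x : ℝ) ≤ (Nat.sqrt x : ℝ) ^ 3 := by
      have h6 : x ≤ (Nat.sqrt x) ^ 3 := by nlinarith
      exact_mod_cast h6
    have h7 : Real.log x ≤ 3 * Real.log (Nat.sqrt x) := by
      calc Real.log x ≤ Real.log ((Nat.sqrt x : ℝ) ^ 3) := Real.log_le_log hx0 h5
        _ = 3 * Real.log (Nat.sqrt x) := by rw [Real.log_pow]; norm_num
    linarith

theorem main (A : Set ℕ) (p : ℕ → ℝ) (c C C₁ : ℝ) (hc : 0 < c)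
    (hp : ∀ᶠ n : ℕ in atTop, 0 ≤ p n ∧ p n ≤ 1 / 2) (hwin : WinBound p C₁)
    (hA : Tuples A p c C) :
    ∃ δ : ℝ, 0 < δ ∧ ∀ᶠ x : ℕ in atTop, ∃ n : ℕ, Nat.sqrt x < n ∧ n ≤ x ∧
      ∀ j : ℕ, 1 ≤ j → (j : ℝ) ≤ δ * Real.log x ^ 2 / Real.log (Real.log x) → n + j ∉ A := by
  classical
  set c' : ℝ := min c 1 with hc'
  have hc'0 : 0 < c' := lt_min hc one_pos
  have hc'1 : c' ≤ 1 := min_le_right _ _
  have hc'c : c' ≤ c := min_le_left _ _
  set θ : ℝ := c' / 16 with hθ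
  have hθ0 : 0 < θ := by positivity
  set δ : ℝ := θ / (40 * (|C₁| + 1)) with hδ
  have hC1 : 0 < |C₁| + 1 := by positivity
  have hδ0 : 0 < δ := by positivity
  have hδC : (|C₁| + 1) * δ = θ / 40 := by
    rw [hδ]; field_simp
  refine ⟨δ, hδ0, ?_⟩
  have hL : Tendsto (fun x : ℕ => Real.log x) atTop atTop :=
    Real.tendsto_log_atTop.comp tendsto_natCast_atTop_atTop
  have hlo : ∀ ε : ℝ, 0 < ε → ∀ᶠ L : ℝ in atTop, Real.log L ≤ ε * L := by
    intro ε hε
    have h1 := Real.isLittleO_log_id_atTop.bound hε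
    filter_upwards [h1, eventually_ge_atTop (1 : ℝ)] with L h2 h3
    simp only [id, Real.norm_eq_abs] at h2
    rw [abs_of_nonneg (Real.log_nonneg h3), abs_of_nonneg (by linarith)] at h2
    exact h2
  have hlo2 : ∀ᶠ L : ℝ in atTop, Real.log L ≤ (δ / 2) * √L := by
    have h1 := Real.tendsto_sqrt_atTop.eventually (hlo (δ / 4) (by positivity))
    filter_upwards [h1, eventually_ge_atTop (1 : ℝ)] with L h2 h3
    rw [Real.log_sqrt (by linarith)] at h2
    linarith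
  have hcond : ∀ᶠ L : ℝ in atTop, 12 ≤ L ∧ 1 ≤ Real.log L ∧ 9 * δ ≤ Real.log L ∧
      12 * θ ≤ Real.log L ∧ Real.log L ≤ (δ / 2) * √L ∧ Real.log L ≤ (c' / 24) * L ∧
      Real.log (8 * |C| + 1) + 1 ≤ (c' / 8) * L := by
    filter_upwards [eventually_ge_atTop (12 : ℝ),
      Real.tendsto_log_atTop.eventually_ge_atTop 1,
      Real.tendsto_log_atTop.eventually_ge_atTop (9 * δ),
      Real.tendsto_log_atTop.eventually_ge_atTop (12 * θ),
      hlo2, hlo (c' / 24) (by positivity),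
      eventually_ge_atTop ((Real.log (8 * |C| + 1) + 1) / (c' / 8))] with L h1 h2 h3 h4 h5 h6 h7
    refine ⟨h1, h2, h3, h4, h5, h6, ?_⟩
    rw [div_le_iff₀ (by positivity)] at h7
    linarith
  have hsq : Tendsto Nat.sqrt atTop atTop := by
    rw [tendsto_atTop]
    intro b
    filter_upwards [eventually_ge_atTop (b * b)] with x hx
    exact Nat.le_sqrt.2 hx
  obtain ⟨n₀, hn₀⟩ := eventually_atTop.1 hwin
  obtain ⟨n₁, hn₁⟩ := eventually_atTop.1 hp
  filter_upwards [hL.eventually hcond, hA, hsq.eventually hA, eventually_ge_atTop 64,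
    hsq.eventually_ge_atTop n₀, hsq.eventually_ge_atTop n₁] with x hx hAx hAy hx64 hyn₀ hyn₁
  obtain ⟨hL12, hM1, hM9, hMθ, hMδ, hMc, hCL⟩ := hx
  obtain ⟨hy1, hyx, hxy, hlogy⟩ := sqrt_facts x hx64
  set y := Nat.sqrt x with hy
  set L : ℝ := Real.log x with hLdef
  set M : ℝ := Real.log L with hMdef
  have hL0 : 0 < L := by linarith
  have hM0 : 0 < M := by linarith
  have hx0 : (0 : ℝ) < x := by positivity
  have hy0 : (0 : ℝ) < y := by exact_mod_cast hy1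
  have hylogx : Real.log y ≤ L := Real.log_le_log hy0 (by exact_mod_cast hyx)
  set s : ℕ := ⌊θ * L / M⌋₊ with hs
  set h : ℕ := ⌊δ * L ^ 2 / M⌋₊ with hh
  have hs1 : (s : ℝ) ≤ θ * L / M := Nat.floor_le (by positivity)
  have hs2 : θ * L / M < s + 1 := Nat.lt_floor_add_one _
  have hh1 : (h : ℝ) ≤ δ * L ^ 2 / M := Nat.floor_le (by positivity)
  have hh2 : δ * L ^ 2 / M < h + 1 := Nat.lt_floor_add_one _
  have hsqL : √L * √L = L := Real.mul_self_sqrt hL0.le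
  have hsqL1 : 1 ≤ √L := by
    rw [Real.one_le_sqrt]; linarith
  have hq1 : 2 * (L * √L) ≤ δ * L ^ 2 / M := by
    rw [le_div_iff₀ hM0]
    have h1 : 2 * (L * √L) * M ≤ 2 * (L * √L) * ((δ / 2) * √L) :=
      mul_le_mul_of_nonneg_left hMδ (by positivity)
    have h2 : 2 * (L * √L) * ((δ / 2) * √L) = δ * L * (√L * √L) := by ring
    rw [h2, hsqL] at h1
    linarith
  have hLL : L ≤ L * √L := by nlinarith
  have hhLL : L * √L ≤ h := by linarith
  have hhL : L ≤ h := by linarith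
  have hh1' : 1 ≤ h := by
    have : (1 : ℝ) ≤ h := by linarith
    exact_mod_cast this
  have hhy : (h : ℝ) ≤ (L / 3) ^ 2 := by
    refine hh1.trans ?_
    rw [div_le_iff₀ hM0]
    nlinarith [sq_nonneg L]
  have hhlogy : (h : ℝ) ≤ Real.log y ^ 2 :=
    hhy.trans (pow_le_pow_left₀ (by positivity) hlogy 2)
  have hsθ : θ * L / M ≤ L / 12 := by
    rw [div_le_iff₀ hM0]
    nlinarith
  have hs3 : 2 * (s : ℝ) + 2 ≤ L / 3 := by linarith
  have hcardy : ∀ H : Finset ℕ, H.card ≤ 2 * s + 1 → (H.card : ℝ) ≤ Real.log y := by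
    intro H hH
    have : (H.card : ℝ) ≤ 2 * s + 1 := by exact_mod_cast hH
    linarith
  -- the indicator of `A`
  let a : ℕ → ℝ := fun n => if n ∈ A then 1 else 0
  have ha : ∀ n, a n = 0 ∨ a n = 1 := by
    intro n
    by_cases hn : n ∈ A
    · exact Or.inr (if_pos hn)
    · exact Or.inl (if_neg hn)
  have hacount : ∀ (H : Finset ℕ) (N : Finset ℕ), ∑ n ∈ N, ∏ j ∈ H, a (n + j)
      = ((N.filter (fun n => ∀ j ∈ H, n + j ∈ A)).card : ℝ) := by
    intro H N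
    rw [Finset.card_filter]
    push_cast
    refine Finset.sum_congr rfl (fun n _ => ?_)
    change ∏ j ∈ H, (if n + j ∈ A then (1 : ℝ) else 0) = _
    rw [Finset.prod_ite_zero]
    simp
  have hsplit : ∀ f : ℕ → ℝ, ∑ n ∈ Ioc y x, f n = ∑ n ∈ Ioc 0 x, f n - ∑ n ∈ Ioc 0 y, f n := by
    intro f
    have h1 : Ioc 0 x = Ioc 0 y ∪ Ioc y x := (Finset.Ioc_union_Ioc_eq_Ioc (Nat.zero_le y) hyx).symm
    rw [h1, Finset.sum_union]
    · ring
    · rw [Finset.disjoint_left]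
      intro n hn hn'
      rw [Finset.mem_Ioc] at hn hn'
      omega
  set E : ℝ := 2 * |C| * (x : ℝ) ^ (1 - c') with hE
  have hE0 : 0 ≤ E := by positivity
  have hpowx : (x : ℝ) ^ (1 - c) ≤ (x : ℝ) ^ (1 - c') :=
    Real.rpow_le_rpow_of_exponent_le (by exact_mod_cast (by omega : 1 ≤ x)) (by linarith)
  have hpowy : (y : ℝ) ^ (1 - c) ≤ (x : ℝ) ^ (1 - c') := by
    calc (y : ℝ) ^ (1 - c) ≤ (y : ℝ) ^ (1 - c') :=
          Real.rpow_le_rpow_of_exponent_le (by exact_mod_cast hy1) (by linarith)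
      _ ≤ (x : ℝ) ^ (1 - c') :=
          Real.rpow_le_rpow hy0.le (by exact_mod_cast hyx) (by linarith)
  have hCabs : ∀ z : ℝ, 0 ≤ z → C * z ≤ |C| * z := fun z hz =>
    mul_le_mul_of_nonneg_right (le_abs_self C) hz
  have hH : ∀ H ⊆ Icc 1 h, H.card ≤ 2 * s + 1 →
      |(∑ n ∈ Ioc y x, ∏ j ∈ H, a (n + j)) - ∑ n ∈ Ioc y x, ∏ j ∈ H, p (n + j)| ≤ E := by
    intro H hH1 hH2
    have hy2 := hcardy H hH2
    have hj : ∀ j ∈ H, 1 ≤ j ∧ (j : ℝ) ≤ Real.log y ^ 2 := by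
      intro j hj
      obtain ⟨h1, h2⟩ := Finset.mem_Icc.1 (hH1 hj)
      refine ⟨h1, le_trans ?_ hhlogy⟩
      exact_mod_cast h2
    have hj' : ∀ j ∈ H, 1 ≤ j ∧ (j : ℝ) ≤ L ^ 2 := by
      intro j hj''
      refine ⟨(hj j hj'').1, (hj j hj'').2.trans (pow_le_pow_left₀ ?_ hylogx 2)⟩
      linarith
    have e1 := hAx H hj' (hy2.trans hylogx)
    have e2 := hAy H hj hy2
    rw [← hacount] at e1 e2
    rw [hsplit, hsplit]
    have e3 : ∀ u v w z : ℝ, |(u - v) - (w - z)| ≤ |u - w| + |v - z| := by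
      intro u v w z
      have : (u - v) - (w - z) = (u - w) - (v - z) := by ring
      rw [this]
      exact abs_sub _ _
    refine (e3 _ _ _ _).trans ?_
    have e4 : C * (x : ℝ) ^ (1 - c) ≤ |C| * (x : ℝ) ^ (1 - c') :=
      (hCabs _ (by positivity)).trans (mul_le_mul_of_nonneg_left hpowx (abs_nonneg C))
    have e5 : C * (y : ℝ) ^ (1 - c) ≤ |C| * (x : ℝ) ^ (1 - c') :=
      (hCabs _ (by positivity)).trans (mul_le_mul_of_nonneg_left hpowy (abs_nonneg C))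
    rw [hE]
    linarith
  have he3 : Real.exp 3 ≤ 21 := by
    have h1 : Real.exp 3 = Real.exp 1 ^ 3 := by rw [← Real.exp_nat_mul]; norm_num
    rw [h1]
    have h2 := Real.exp_one_lt_d9
    have h3 := Real.exp_pos 1
    calc Real.exp 1 ^ 3 ≤ (2.72 : ℝ) ^ 3 := pow_le_pow_left₀ h3.le (by linarith) 3
      _ ≤ 21 := by norm_num
  have hw : ∀ n ∈ Ioc y x, ∑ j ∈ Icc 1 h, p (n + j) ≤ 2 * (s + 1 : ℝ) / Real.exp 3 := by
    intro n hn
    obtain ⟨h1, h2⟩ := Finset.mem_Ioc.1 hn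
    have hn0 : (0 : ℝ) < n := by
      have : 0 < n := by omega
      exact_mod_cast this
    have hlogn : Real.log y ≤ Real.log n := Real.log_le_log hy0 (by exact_mod_cast h1.le)
    have hlogn' : Real.log n ≤ L := Real.log_le_log hn0 (by exact_mod_cast h2)
    have h30 : Real.log n * √(Real.log n) ≤ L * √L :=
      mul_le_mul hlogn' (Real.sqrt_le_sqrt hlogn') (Real.sqrt_nonneg _) hL0.le
    have h3 := hn₀ n (by omega) h (h30.trans hhLL)
      (hhlogy.trans (pow_le_pow_left₀ (by linarith) hlogn 2))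
    refine h3.trans ?_
    have hln : L / 3 ≤ Real.log n := hlogy.trans hlogn
    have h4 : C₁ * h / Real.log n ≤ (|C₁| + 1) * (δ * L ^ 2 / M) / (L / 3) := by
      have h5 : C₁ * h ≤ (|C₁| + 1) * (δ * L ^ 2 / M) := by
        have h6 : C₁ * h ≤ (|C₁| + 1) * h :=
          mul_le_mul_of_nonneg_right (by linarith [le_abs_self C₁]) (by positivity)
        exact h6.trans (mul_le_mul_of_nonneg_left hh1 hC1.le)
      have h7 : 0 ≤ (|C₁| + 1) * (δ * L ^ 2 / M) := by positivity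
      calc C₁ * h / Real.log n ≤ (|C₁| + 1) * (δ * L ^ 2 / M) / Real.log n :=
            div_le_div_of_nonneg_right h5 (by linarith)
        _ ≤ _ := div_le_div_of_nonneg_left h7 (by positivity) hln
    refine h4.trans ?_
    have h8 : (|C₁| + 1) * (δ * L ^ 2 / M) / (L / 3) = 3 * ((|C₁| + 1) * δ) * (L / M) := by
      field_simp
    rw [h8, hδC, le_div_iff₀ (Real.exp_pos 3)]
    have h9 : 0 < L / M := by positivity
    have h10 : θ * (L / M) < s + 1 := by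
      have : θ * (L / M) = θ * L / M := by ring
      rw [this]; exact hs2
    calc 3 * (θ / 40) * (L / M) * Real.exp 3 ≤ 3 * (θ / 40) * (L / M) * 21 :=
          mul_le_mul_of_nonneg_left he3 (by positivity)
      _ ≤ 2 * (s + 1 : ℝ) := by nlinarith
  have hlt : (2 * s + 2 : ℝ) * (h : ℝ) ^ (2 * s + 2) * E
      < (x - y : ℕ) * (Real.exp (-(s + 1 : ℝ)) / 2) := by
    have hxexp : (x : ℝ) = Real.exp L := (Real.exp_log hx0).symm
    have hLexp : L = Real.exp M := (Real.exp_log hL0).symm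
    have h1 : (2 * s + 2 : ℝ) ≤ h := by linarith
    have h2 : (h : ℝ) ≤ L ^ 2 := hhlogy.trans (pow_le_pow_left₀ (by linarith) hylogx 2)
    have h3 : (2 * s + 2 : ℝ) * (h : ℝ) ^ (2 * s + 2) ≤ Real.exp (4 * θ * L + 6 * M) := by
      calc (2 * s + 2 : ℝ) * (h : ℝ) ^ (2 * s + 2) ≤ h * (h : ℝ) ^ (2 * s + 2) :=
            mul_le_mul_of_nonneg_right h1 (by positivity)
        _ = (h : ℝ) ^ (2 * s + 3) := by ring
        _ ≤ (L ^ 2) ^ (2 * s + 3) := pow_le_pow_left₀ (by positivity) h2 _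
        _ = Real.exp ((2 * (2 * s + 3) : ℕ) * M) := by
            rw [Real.exp_nat_mul, ← hLexp, ← pow_mul]
        _ ≤ Real.exp (4 * θ * L + 6 * M) := by
            refine Real.exp_le_exp.2 ?_
            push_cast
            have h4 : (s : ℝ) * M ≤ θ * L := by
              rw [← le_div_iff₀ hM0]; exact hs1
            nlinarith
    have h5 : E = 2 * |C| * Real.exp ((1 - c') * L) := by
      rw [hE, Real.rpow_def_of_pos hx0, mul_comm L]
    have h6 : Real.exp (L - (θ * L + 1)) / 4 ≤ (x - y : ℕ) * (Real.exp (-(s + 1 : ℝ)) / 2) := by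
      have h7 : Real.exp (-(θ * L + 1)) ≤ Real.exp (-(s + 1 : ℝ)) := by
        refine Real.exp_le_exp.2 ?_
        have h8 : θ * L / M ≤ θ * L := div_le_self (by positivity) hM1
        linarith
      have h9 : Real.exp (L - (θ * L + 1)) = x * Real.exp (-(θ * L + 1)) := by
        rw [hxexp, ← Real.exp_add]; congr 1
      rw [h9]
      have h10 : 0 < Real.exp (-(θ * L + 1)) := Real.exp_pos _
      have h11 : (x : ℝ) / 2 * (Real.exp (-(θ * L + 1)) / 2)
          ≤ (x - y : ℕ) * (Real.exp (-(s + 1 : ℝ)) / 2) :=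
        mul_le_mul hxy (by linarith) (by positivity) (by positivity)
      linarith
    refine lt_of_lt_of_le ?_ h6
    have h12 : (2 * s + 2 : ℝ) * (h : ℝ) ^ (2 * s + 2) * E
        ≤ Real.exp (4 * θ * L + 6 * M) * (2 * |C| * Real.exp ((1 - c') * L)) := by
      rw [h5]
      exact mul_le_mul_of_nonneg_right h3 (by positivity)
    refine lt_of_le_of_lt h12 ?_
    have h13 : (0 : ℝ) < 8 * |C| + 1 := by positivity
    have h14 : 8 * |C| < Real.exp (Real.log (8 * |C| + 1)) := by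
      rw [Real.exp_log h13]; linarith
    have h15 : Real.exp (4 * θ * L + 6 * M) * (2 * |C| * Real.exp ((1 - c') * L))
        = (8 * |C|) * Real.exp (4 * θ * L + 6 * M + (1 - c') * L) / 4 := by
      rw [Real.exp_add (4 * θ * L + 6 * M)]; ring
    rw [h15]
    refine div_lt_div_of_pos_right ?_ (by norm_num)
    calc (8 * |C|) * Real.exp (4 * θ * L + 6 * M + (1 - c') * L)
        < Real.exp (Real.log (8 * |C| + 1)) * Real.exp (4 * θ * L + 6 * M + (1 - c') * L) :=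
          mul_lt_mul_of_pos_right h14 (Real.exp_pos _)
      _ = Real.exp (Real.log (8 * |C| + 1) + (4 * θ * L + 6 * M + (1 - c') * L)) := by
          rw [← Real.exp_add]
      _ ≤ Real.exp (L - (θ * L + 1)) := by
          refine Real.exp_le_exp.2 ?_
          rw [hθ]
          nlinarith
  -- truncated weight
  let p' : ℕ → ℝ := fun n => if n₁ ≤ n then p n else 0
  have hp'0 : ∀ n, 0 ≤ p' n := by
    intro n
    change 0 ≤ if n₁ ≤ n then p n else 0
    split_ifs with h1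
    · exact (hn₁ n h1).1
    · exact le_rfl
  have hp'1 : ∀ n, p' n ≤ 1 / 2 := by
    intro n
    change (if n₁ ≤ n then p n else 0) ≤ 1 / 2
    split_ifs with h1
    · exact (hn₁ n h1).2
    · norm_num
  have hp'2 : ∀ n ∈ Ioc y x, ∀ j, p' (n + j) = p (n + j) := by
    intro n hn j
    have h1 := (Finset.mem_Ioc.1 hn).1
    exact if_pos (by omega)
  have hH' : ∀ H ⊆ Icc 1 h, H.card ≤ 2 * s + 1 →
      |(∑ n ∈ Ioc y x, ∏ j ∈ H, a (n + j)) - ∑ n ∈ Ioc y x, ∏ j ∈ H, p' (n + j)| ≤ E := by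
    intro H hH1 hH2
    have e1 : ∑ n ∈ Ioc y x, ∏ j ∈ H, p' (n + j) = ∑ n ∈ Ioc y x, ∏ j ∈ H, p (n + j) :=
      Finset.sum_congr rfl (fun n hn => Finset.prod_congr rfl (fun j _ => hp'2 n hn j))
    rw [e1]
    exact hH H hH1 hH2
  have hw' : ∀ n ∈ Ioc y x, ∑ j ∈ Icc 1 h, p' (n + j) ≤ 2 * (s + 1 : ℝ) / Real.exp 3 := by
    intro n hn
    have e1 : ∑ j ∈ Icc 1 h, p' (n + j) = ∑ j ∈ Icc 1 h, p (n + j) :=
      Finset.sum_congr rfl (fun j _ => hp'2 n hn j)
    rw [e1]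
    exact hw n hn
  obtain ⟨n, hn, hn2⟩ := core a p' ha hp'0 hp'1 x y h s hh1' E hE0 hH' hw' hlt
  obtain ⟨hn3, hn4⟩ := Finset.mem_Ioc.1 hn
  refine ⟨n, hn3, hn4, fun j hj1 hj2 hjA => ?_⟩
  have hj3 : j ≤ h := Nat.le_floor hj2
  have := hn2 j (Finset.mem_Icc.2 ⟨hj1, hj3⟩)
  change (if n + j ∈ A then (1 : ℝ) else 0) = 0 at this
  rw [if_pos hjA] at this
  exact one_ne_zero this

end Pool.CI63
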