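import Pool.Agent.LibCI.Bonf

/-! The sieve inequality for windows. -/

set_option autoImplicit false

namespace Pool.CI63

open Finset

/-- windows -/
noncomputable def win (p : ℕ → ℝ) (n : ℕ) : ℕ → ℝ := fun j => p (n + j)

theorem sum_bs (p : ℕ → ℝ) (N : Finset ℕ) (s : Finset ℕ) (K : ℕ) :
    ∑ n ∈ N, bs (win p n) s K
      = ∑ k ∈ range (K + 1), (-1 : ℝ) ^ k * ∑ H ∈ s.powersetCard k, ∑ n ∈ N, ∏ j ∈ H, p (n + j) := by
  unfold bs es win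
  rw [Finset.sum_comm]
  refine Finset.sum_congr rfl (fun k _ => ?_)
  rw [← Finset.mul_sum, Finset.sum_comm]

theorem bs_diff (a p : ℕ → ℝ) (N : Finset ℕ) (h K : ℕ) (hh : 1 ≤ h) (E : ℝ) (hE : 0 ≤ E)
    (hH : ∀ H ⊆ Icc 1 h, H.card ≤ K →
      |(∑ n ∈ N, ∏ j ∈ H, a (n + j)) - ∑ n ∈ N, ∏ j ∈ H, p (n + j)| ≤ E) :
    ∑ n ∈ N, bs (win p n) (Icc 1 h) K - (K + 1) * (h : ℝ) ^ (K + 1) * E
      ≤ ∑ n ∈ N, bs (win a n) (Icc 1 h) K := by
  rw [sum_bs, sum_bs]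
  have h1 : |∑ k ∈ range (K + 1), (-1 : ℝ) ^ k * ∑ H ∈ (Icc 1 h).powersetCard k,
        ∑ n ∈ N, ∏ j ∈ H, p (n + j)
      - ∑ k ∈ range (K + 1), (-1 : ℝ) ^ k * ∑ H ∈ (Icc 1 h).powersetCard k,
        ∑ n ∈ N, ∏ j ∈ H, a (n + j)| ≤ (K + 1) * (h : ℝ) ^ (K + 1) * E := by
    rw [← Finset.sum_sub_distrib]
    refine (Finset.abs_sum_le_sum_abs _ _).trans ?_
    have h2 : ∀ k ∈ range (K + 1), |(-1 : ℝ) ^ k * ∑ H ∈ (Icc 1 h).powersetCard k,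
        ∑ n ∈ N, ∏ j ∈ H, p (n + j) - (-1 : ℝ) ^ k * ∑ H ∈ (Icc 1 h).powersetCard k,
        ∑ n ∈ N, ∏ j ∈ H, a (n + j)| ≤ (h : ℝ) ^ (K + 1) * E := by
      intro k hk
      have hk' : k ≤ K := Nat.lt_succ_iff.1 (Finset.mem_range.1 hk)
      rw [← mul_sub, abs_mul, abs_pow, abs_neg, abs_one, one_pow, one_mul,
        ← Finset.sum_sub_distrib]
      refine (Finset.abs_sum_le_sum_abs _ _).trans ?_
      have h3 : ∀ H ∈ (Icc 1 h).powersetCard k,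
          |(∑ n ∈ N, ∏ j ∈ H, p (n + j)) - ∑ n ∈ N, ∏ j ∈ H, a (n + j)| ≤ E := by
        intro H hH'
        obtain ⟨h4, h5⟩ := Finset.mem_powersetCard.1 hH'
        rw [abs_sub_comm]
        exact hH H h4 (by omega)
      refine (Finset.sum_le_card_nsmul _ _ _ h3).trans ?_
      rw [nsmul_eq_mul, Finset.card_powersetCard, Nat.card_Icc, Nat.add_sub_cancel]
      refine mul_le_mul_of_nonneg_right ?_ hE
      have h6 : h.choose k ≤ h ^ k := Nat.choose_le_pow h k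
      have h7 : h ^ k ≤ h ^ (K + 1) := Nat.pow_le_pow_right hh (by omega)
      exact_mod_cast h6.trans h7
    refine (Finset.sum_le_card_nsmul _ _ _ h2).trans ?_
    rw [nsmul_eq_mul, Finset.card_range]
    push_cast
    rw [mul_assoc]
  have h8 := (abs_le.1 h1).2
  linarith

theorem core (a p : ℕ → ℝ) (ha : ∀ n, a n = 0 ∨ a n = 1) (hp : ∀ n, 0 ≤ p n)
    (hp1 : ∀ n, p n ≤ 1 / 2) (x y h s : ℕ) (hh : 1 ≤ h) (E : ℝ) (hE : 0 ≤ E)
    (hH : ∀ H ⊆ Icc 1 h, H.card ≤ 2 * s + 1 →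
      |(∑ n ∈ Ioc y x, ∏ j ∈ H, a (n + j)) - ∑ n ∈ Ioc y x, ∏ j ∈ H, p (n + j)| ≤ E)
    (hw : ∀ n ∈ Ioc y x, ∑ j ∈ Icc 1 h, p (n + j) ≤ 2 * (s + 1 : ℝ) / Real.exp 3)
    (hlt : (2 * s + 2 : ℝ) * (h : ℝ) ^ (2 * s + 2) * E
      < (x - y : ℕ) * (Real.exp (-(s + 1 : ℝ)) / 2)) :
    ∃ n ∈ Ioc y x, ∀ j ∈ Icc 1 h, a (n + j) = 0 := by
  have ha0 : ∀ n, 0 ≤ a n := fun n => by rcases ha n with h | h <;> simp [h]
  have ha1 : ∀ n, a n ≤ 1 := fun n => by rcases ha n with h | h <;> simp [h]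
  -- upper bound for the alternating sums of `a`
  have h1 : ∀ n, bs (win a n) (Icc 1 h) (2 * s + 1) ≤ ∏ j ∈ Icc 1 h, (1 - a (n + j)) := by
    intro n
    have := bonf (win a n) (fun i => ha0 _) (fun i => ha1 _) (Icc 1 h) (2 * s + 1)
    rw [Odd.neg_one_pow ⟨s, rfl⟩] at this
    change 0 ≤ -1 * (bs (win a n) (Icc 1 h) (2 * s + 1) - ∏ j ∈ Icc 1 h, (1 - a (n + j))) at this
    linarith
  -- lower bound for the alternating sums of `p`
  have h2 : ∀ n ∈ Ioc y x, Real.exp (-(s + 1 : ℝ)) / 2 ≤ bs (win p n) (Icc 1 h) (2 * s + 1) := by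
    intro n hn
    have h3 := bonf (win p n) (fun i => hp _) (fun i => (hp1 _).trans (by norm_num)) (Icc 1 h)
      (2 * s + 1 + 1)
    rw [Even.neg_one_pow ⟨s + 1, by ring⟩, one_mul, bs_succ,
      Even.neg_one_pow ⟨s + 1, by ring⟩, one_mul] at h3
    have h4 := prod_ge_exp (win p n) (fun i => hp _) (fun i => hp1 _) (Icc 1 h)
    have hs : ∑ i ∈ Icc 1 h, win p n i ≤ 2 * ((s + 1 : ℕ) : ℝ) / Real.exp 3 := by
      push_cast
      exact hw n hn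
    have h5 := es_tail (win p n) (fun i => hp _) (Icc 1 h) (s + 1) (by omega) hs
    have h6 : 2 * s + 1 + 1 = 2 * (s + 1) := by ring
    rw [h6] at h3
    have he3 : (4 : ℝ) ≤ Real.exp 3 := by
      have := Real.add_one_le_exp (3 : ℝ); linarith
    have h7 : 2 * ∑ i ∈ Icc 1 h, win p n i ≤ (s + 1 : ℝ) := by
      have hs' : 2 * ((s + 1 : ℕ) : ℝ) / Real.exp 3 ≤ 2 * ((s + 1 : ℕ) : ℝ) / 4 :=
        div_le_div_of_nonneg_left (by positivity) (by norm_num) he3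
      push_cast at hs hs'
      linarith
    have h8 : Real.exp (-(s + 1 : ℝ)) ≤ ∏ i ∈ Icc 1 h, (1 - win p n i) := by
      refine le_trans (Real.exp_le_exp.2 ?_) h4
      linarith
    have h9 : Real.exp (-4 * ((s + 1 : ℕ) : ℝ)) ≤ Real.exp (-(s + 1 : ℝ)) / 2 := by
      have h10 : Real.exp (-4 * ((s + 1 : ℕ) : ℝ)) = Real.exp (-(s + 1 : ℝ))
          * Real.exp (-3 * (s + 1 : ℝ)) := by
        rw [← Real.exp_add]; congr 1; push_cast; ring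
      rw [h10]
      have h11 : Real.exp (-3 * (s + 1 : ℝ)) ≤ 1 / 2 := by
        have h12 : (2 : ℝ) ≤ Real.exp (3 * (s + 1 : ℝ)) := by
          have := Real.add_one_le_exp (3 * (s + 1 : ℝ))
          have hs0 : (0 : ℝ) ≤ (s : ℝ) := Nat.cast_nonneg s
          nlinarith
        have h13 : Real.exp (-3 * (s + 1 : ℝ)) = (Real.exp (3 * (s + 1 : ℝ)))⁻¹ := by
          rw [← Real.exp_neg]; ring_nf
        rw [h13, one_div]
        exact inv_anti₀ (by norm_num) h12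
      have := mul_le_mul_of_nonneg_left h11 (Real.exp_pos (-(s + 1 : ℝ))).le
      linarith
    linarith
  have h3 := bs_diff a p (Ioc y x) h (2 * s + 1) hh E hE hH
  have h4 : ((x - y : ℕ) : ℝ) * (Real.exp (-(s + 1 : ℝ)) / 2)
      ≤ ∑ n ∈ Ioc y x, bs (win p n) (Icc 1 h) (2 * s + 1) := by
    have := Finset.card_nsmul_le_sum (Ioc y x) _ _ h2
    rwa [nsmul_eq_mul, Nat.card_Ioc] at this
  have h5 : ∑ n ∈ Ioc y x, bs (win a n) (Icc 1 h) (2 * s + 1)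
      ≤ ∑ n ∈ Ioc y x, ∏ j ∈ Icc 1 h, (1 - a (n + j)) := Finset.sum_le_sum (fun n _ => h1 n)
  have h6 : 0 < ∑ n ∈ Ioc y x, ∏ j ∈ Icc 1 h, (1 - a (n + j)) := by
    push_cast at h3
    have e1 : ((2 : ℝ) * s + 1 + 1) = 2 * s + 2 := by ring
    have e2 : 2 * s + 1 + 1 = 2 * s + 2 := by ring
    rw [e1, e2] at h3
    linarith
  obtain ⟨n, hn, hne⟩ := Finset.exists_ne_zero_of_sum_ne_zero h6.ne'
  refine ⟨n, hn, fun j hj => ?_⟩
  rcases ha (n + j) with h7 | h7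
  · exact h7
  · exact absurd (Finset.prod_eq_zero hj (by rw [h7]; norm_num)) hne

end Pool.CI63
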