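import Pool.Agent.LibCI.Conv
import Pool.Agent.LibBar93.Defs

/-! Densities with a slow sieving limit. -/

set_option autoImplicit false

namespace Pool.CI63

open Filter Topology

/-- the product of all primes `q ≤ t`. -/
noncomputable def prim (t : ℕ) : ℕ := ∏ q ∈ (Finset.range (t + 1)).filter Nat.Prime, q

/-- `∏_{q ≤ t} (1 - 1/q)`, `q` prime. -/
noncomputable def vee (t : ℕ) : ℝ :=
  ∏ q ∈ (Finset.range (t + 1)).filter Nat.Prime, (1 - 1 / (q : ℝ))

/-- the density with the sieving limit `T n` -/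
noncomputable def wden (T : ℕ → ℕ) (n : ℕ) : ℝ :=
  if Nat.Coprime n (prim (T n)) then 1 / (vee (T n) * Real.log n) else 0

/-- `T` is nondecreasing and `T n ≤ log log n` for `n ≥ 3`. -/
structure Slow (T : ℕ → ℕ) : Prop where
  mono : Monotone T
  le : ∀ n : ℕ, 3 ≤ n → (T n : ℝ) ≤ Real.log (Real.log n) ∨ T n = 0

end Pool.CI63
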