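import Pool.Agent.LibCI.Dens

/-! The converse for the weights `wden T`. -/

set_option autoImplicit false

namespace Pool.CI63

open Finset Filter
open Pool.Agent.LibBar93 (tuples mainT)

theorem vee_pos (t : ℕ) : 0 < vee t := by
  unfold vee
  refine Finset.prod_pos (fun q hq => ?_)
  have h1 : 1 < q := (Finset.mem_filter.1 hq).2.one_lt
  have h2 : (1 : ℝ) < q := by exact_mod_cast h1
  have h3 : 1 / (q : ℝ) < 1 := by
    rw [div_lt_one (by linarith)]; exact h2
  linarith

theorem vee_succ (t : ℕ) : vee (t + 1) = if (t + 1).Prime then (1 - 1 / ((t + 1 : ℕ) : ℝ)) * vee t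
    else vee t := by
  unfold vee
  rw [Finset.range_add_one (n := t + 1), Finset.filter_insert]
  split_ifs with h
  · rw [Finset.prod_insert]
    simp
  · rfl

theorem vee_ge (t : ℕ) : 1 / ((t : ℝ) + 1) ≤ vee (t + 1) := by
  induction t with
  | zero =>
    have : vee 1 = 1 := by
      unfold vee
      have h : (Finset.range 2).filter Nat.Prime = ∅ := by decide
      rw [h]; simp
    rw [zero_add, this]; norm_num
  | succ t ih =>
    rw [vee_succ]
    have ht : (0 : ℝ) ≤ (t : ℝ) := Nat.cast_nonneg t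
    split_ifs with h
    · push_cast
      have h1 : (1 : ℝ) - 1 / ((t : ℝ) + 1 + 1) = ((t : ℝ) + 1) / ((t : ℝ) + 1 + 1) := by
        field_simp; ring
      rw [h1]
      have h2 := mul_le_mul_of_nonneg_left ih
        (by positivity : (0 : ℝ) ≤ ((t : ℝ) + 1) / ((t : ℝ) + 1 + 1))
      refine le_trans (le_of_eq ?_) h2
      field_simp
    · refine le_trans ?_ ih
      push_cast
      apply one_div_le_one_div_of_le <;> linarith

theorem vee_ge' (t : ℕ) : 1 / ((t : ℝ) + 1) ≤ vee t := by
  cases t with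
  | zero =>
    have : vee 0 = 1 := by
      unfold vee
      have h : (Finset.range 1).filter Nat.Prime = ∅ := by decide
      rw [h]; simp
    rw [this]; norm_num
  | succ t =>
    refine le_trans ?_ (vee_ge t)
    push_cast
    have ht : (0 : ℝ) ≤ (t : ℝ) := Nat.cast_nonneg t
    apply one_div_le_one_div_of_le <;> linarith

theorem prim_pos (t : ℕ) : 0 < prim t := by
  unfold prim
  exact Finset.prod_pos (fun q hq => (Finset.mem_filter.1 hq).2.pos)

theorem prim_le (t : ℕ) : prim t ≤ 4 ^ t := primorial_le_four_pow t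

theorem totient_prim (t : ℕ) : (Nat.totient (prim t) : ℝ) = prim t * vee t := by
  have h1 : (prim t).primeFactors = (Finset.range (t + 1)).filter Nat.Prime := by
    unfold prim
    exact Nat.primeFactors_prod (fun q hq => (Finset.mem_filter.1 hq).2)
  have h2 := Nat.totient_eq_mul_prod_factors (prim t)
  rw [h1] at h2
  have h3 : ((Nat.totient (prim t) : ℚ) : ℝ) = ((prim t * ∏ p ∈ (Finset.range (t + 1)).filter
    Nat.Prime, (1 - (p : ℚ)⁻¹) : ℚ) : ℝ) := by rw [h2]
  push_cast at h3
  rw [h3]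
  unfold vee
  simp only [one_div]

theorem dens_nonneg (T : ℕ → ℕ) (n : ℕ) : 0 ≤ wden T n := by
  unfold wden
  split_ifs
  · exact div_nonneg zero_le_one (mul_nonneg (vee_pos _).le (Real.log_natCast_nonneg n))
  · exact le_rfl

theorem tendsto_log_nat : Tendsto (fun x : ℕ => Real.log x) atTop atTop :=
  Real.tendsto_log_atTop.comp tendsto_natCast_atTop_atTop

theorem dens_le (T : ℕ → ℕ) (hT : Slow T) : ∀ᶠ n : ℕ in atTop, 0 ≤ wden T n ∧ wden T n ≤ 1 / 2 := by
  have h1 : ∀ᶠ L : ℝ in atTop, Real.log L ≤ (1 / 4) * L := by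
    have h1 := Real.isLittleO_log_id_atTop.bound (show (0 : ℝ) < 1 / 4 by norm_num)
    filter_upwards [h1, eventually_ge_atTop (1 : ℝ)] with L h2 h3
    simp only [id, Real.norm_eq_abs] at h2
    rw [abs_of_nonneg (Real.log_nonneg h3), abs_of_nonneg (by linarith)] at h2
    exact h2
  filter_upwards [tendsto_log_nat.eventually h1, tendsto_log_nat.eventually_ge_atTop 4,
    eventually_ge_atTop 3] with n h2 h3 h4
  refine ⟨dens_nonneg T n, ?_⟩
  unfold wden
  split_ifs with h5
  · have h6 : (T n : ℝ) ≤ (1 / 4) * Real.log n := by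
      rcases hT.le n h4 with h | h
      · exact h.trans h2
      · rw [h]; simp; linarith
    have h7 := vee_ge' (T n)
    have h8 : 0 < Real.log (n : ℝ) := by linarith
    rw [div_le_iff₀ (mul_pos (vee_pos _) h8)]
    have h9 : (0 : ℝ) < (T n : ℝ) + 1 := by positivity
    have h10 : 1 / ((T n : ℝ) + 1) * Real.log n ≤ vee (T n) * Real.log n :=
      mul_le_mul_of_nonneg_right h7 h8.le
    have h11 : 2 ≤ 1 / ((T n : ℝ) + 1) * Real.log n := by
      rw [one_div, ← div_eq_inv_mul, le_div_iff₀ h9]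
      linarith
    linarith
  · norm_num

/-- the elements of a fibre of a monotone function in an interval -/
theorem fibre_le (T : ℕ → ℕ) (hT : Monotone T) (I : Finset ℕ) (a b t : ℕ) (hI : I = Ioc a b) :
    ((I.filter (fun m => T m = t)).filter (fun m => Nat.Coprime m (prim t))).card
      ≤ Nat.totient (prim t) * ((I.filter (fun m => T m = t)).card / prim t + 1) := by
  set F := I.filter (fun m => T m = t) with hF
  by_cases hne : F.Nonempty
  · have hsub : F ⊆ Ico (F.min' hne) (F.min' hne + F.card) := by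
      intro m hm
      have h1 : F.min' hne ≤ m := Finset.min'_le _ _ hm
      refine Finset.mem_Ico.2 ⟨h1, ?_⟩
      have h2 : Icc (F.min' hne) m ⊆ F := by
        intro u hu
        obtain ⟨hu1, hu2⟩ := Finset.mem_Icc.1 hu
        have h3 : F.min' hne ∈ F := Finset.min'_mem _ _
        have hmem : ∀ w, w ∈ F ↔ (a < w ∧ w ≤ b) ∧ T w = t := by
          intro w
          rw [hF, Finset.mem_filter, hI, Finset.mem_Ioc]
        have h3' := (hmem _).1 h3
        have hm' := (hmem _).1 hm
        refine (hmem u).2 ⟨⟨by omega, by omega⟩, ?_⟩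
        have h4 := hT hu1
        have h5 := hT hu2
        rw [h3'.2] at h4
        rw [hm'.2] at h5
        omega
      have h3 := Finset.card_le_card h2
      rw [Nat.card_Icc] at h3
      omega
    have h1 : (F.filter (fun m => Nat.Coprime m (prim t))).card
        ≤ ((Ico (F.min' hne) (F.min' hne + F.card)).filter (Nat.Coprime (prim t))).card := by
      refine Finset.card_le_card (fun m hm => ?_)
      obtain ⟨h1, h2⟩ := Finset.mem_filter.1 hm
      exact Finset.mem_filter.2 ⟨hsub h1, h2.symm⟩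
    exact h1.trans (Nat.Ico_filter_coprime_le _ _ (prim_pos t).ne')
  · rw [Finset.not_nonempty_iff_eq_empty] at hne
    rw [hne]
    simp

theorem win_sum (T : ℕ → ℕ) (hT : Slow T) (n h : ℕ) (hn : 3 ≤ n) (hlog : 0 < Real.log (n : ℝ))
    (K : ℕ) (hK : ∀ m ∈ Ioc n (n + h), T m ≤ K) :
    ∑ j ∈ Icc 1 h, wden T (n + j) ≤ (h + 2 * (4 : ℝ) ^ K) / Real.log n := by
  have h1 : ∑ j ∈ Icc 1 h, wden T (n + j) = ∑ m ∈ Ioc n (n + h), wden T m := by
    have e1 : Ioc n (n + h) = (Icc 1 h).map (addLeftEmbedding n) := by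
      rw [Finset.map_add_left_Icc]
      ext m
      simp only [Finset.mem_Ioc, Finset.mem_Icc]
      omega
    rw [e1, Finset.sum_map]
    rfl
  rw [h1]
  have h2 : ∀ m ∈ Ioc n (n + h), T m ∈ range (K + 1) := fun m hm =>
    Finset.mem_range.2 (Nat.lt_succ_of_le (hK m hm))
  rw [← Finset.sum_fiberwise_of_maps_to h2]
  have h3 : ∀ t ∈ range (K + 1), ∑ m ∈ (Ioc n (n + h)).filter (fun m => T m = t), wden T m
      ≤ (((Ioc n (n + h)).filter (fun m => T m = t)).card + (4 : ℝ) ^ t) / Real.log n := by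
    intro t _
    set F := (Ioc n (n + h)).filter (fun m => T m = t) with hF
    have h4 : ∀ m ∈ F, wden T m ≤ if Nat.Coprime m (prim t) then 1 / (vee t * Real.log n)
        else 0 := by
      intro m hm
      rw [hF, Finset.mem_filter, Finset.mem_Ioc] at hm
      unfold wden
      rw [hm.2]
      split_ifs
      · apply one_div_le_one_div_of_le (mul_pos (vee_pos t) hlog)
        refine mul_le_mul_of_nonneg_left ?_ (vee_pos t).le
        apply Real.log_le_log
        · have : 0 < n := by omega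
          exact_mod_cast this
        · exact_mod_cast hm.1.1.le
      · exact le_rfl
    refine (Finset.sum_le_sum h4).trans ?_
    rw [← Finset.sum_filter, Finset.sum_const, nsmul_eq_mul]
    have h5 := fibre_le T hT.mono (Ioc n (n + h)) n (n + h) t rfl
    rw [← hF] at h5
    have hQ : (0 : ℝ) < (prim t : ℝ) := by exact_mod_cast prim_pos t
    have h6 : (((F.filter (fun m => Nat.Coprime m (prim t))).card : ℕ) : ℝ)
        ≤ prim t * vee t * ((F.card : ℝ) / prim t + 1) := by
      rw [← totient_prim]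
      have h7 : (((F.filter (fun m => Nat.Coprime m (prim t))).card : ℕ) : ℝ)
          ≤ ((Nat.totient (prim t) * (F.card / prim t + 1) : ℕ) : ℝ) := by exact_mod_cast h5
      refine h7.trans ?_
      push_cast
      refine mul_le_mul_of_nonneg_left ?_ (by positivity)
      have h8 : ((F.card / prim t : ℕ) : ℝ) ≤ (F.card : ℝ) / (prim t : ℝ) := Nat.cast_div_le
      linarith
    have h9 : (prim t : ℝ) ≤ (4 : ℝ) ^ t := by exact_mod_cast prim_le t
    have hv := vee_pos t
    calc (((F.filter (fun m => Nat.Coprime m (prim t))).card : ℕ) : ℝ)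
          * (1 / (vee t * Real.log n))
        ≤ (prim t * vee t * ((F.card : ℝ) / prim t + 1)) * (1 / (vee t * Real.log n)) :=
          mul_le_mul_of_nonneg_right h6 (by positivity)
      _ = ((F.card : ℝ) + prim t) / Real.log n := by
          field_simp
      _ ≤ ((F.card : ℝ) + (4 : ℝ) ^ t) / Real.log n := by
          apply div_le_div_of_nonneg_right _ hlog.le
          linarith
  refine (Finset.sum_le_sum h3).trans ?_
  rw [← Finset.sum_div]
  apply div_le_div_of_nonneg_right _ hlog.le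
  rw [Finset.sum_add_distrib]
  have h10 : ∑ t ∈ range (K + 1), ((((Ioc n (n + h)).filter (fun m => T m = t)).card : ℕ) : ℝ)
      = h := by
    have h11 := Finset.card_eq_sum_card_fiberwise h2
    rw [Nat.card_Ioc] at h11
    have h12 : n + h - n = h := by omega
    rw [h12] at h11
    exact_mod_cast h11.symm
  rw [h10]
  have h13 : ∑ t ∈ range (K + 1), (4 : ℝ) ^ t ≤ 2 * (4 : ℝ) ^ K := by
    rw [geom_sum_eq (by norm_num)]
    rw [pow_succ]
    have : (0 : ℝ) < 4 ^ K := by positivity
    linarith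
  linarith

theorem winBound_dens (T : ℕ → ℕ) (hT : Slow T) : WinBound (wden T) 2 := by
  have hpow : ∀ᶠ u : ℝ in atTop, 2 * (2 * u) ^ (7 / 5 : ℝ) ≤ u * √u := by
    have h1 : Tendsto (fun u : ℝ => u ^ (1 / 10 : ℝ)) atTop atTop :=
      tendsto_rpow_atTop (by norm_num)
    filter_upwards [h1.eventually_ge_atTop (2 * 2 ^ (7 / 5 : ℝ)), eventually_gt_atTop (0 : ℝ)]
      with u h2 h3
    have h4 : u * √u = u ^ (7 / 5 : ℝ) * u ^ (1 / 10 : ℝ) := by
      rw [Real.sqrt_eq_rpow, ← Real.rpow_add h3]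
      nth_rewrite 1 [← Real.rpow_one u]
      rw [← Real.rpow_add h3]
      norm_num
    rw [h4, Real.mul_rpow (by norm_num) h3.le]
    have h5 : 0 ≤ u ^ (7 / 5 : ℝ) := by positivity
    nlinarith
  have hlogsq : ∀ᶠ n : ℕ in atTop, Real.log n ^ 2 ≤ (n : ℝ) := by
    have h1 : (fun x : ℝ => Real.log x ^ 2) =o[atTop] fun x : ℝ => x := by
      have := isLittleO_log_rpow_rpow_atTop 2 (show (0 : ℝ) < 1 by norm_num)
      simpa using this
    have h2 := h1.bound (show (0 : ℝ) < 1 by norm_num)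
    have h3 := tendsto_natCast_atTop_atTop (R := ℝ) |>.eventually h2
    filter_upwards [h3] with n h4
    simp only [Real.norm_eq_abs, one_mul] at h4
    rw [abs_of_nonneg (by positivity), abs_of_nonneg (by positivity)] at h4
    exact h4
  filter_upwards [tendsto_log_nat.eventually hpow, hlogsq, eventually_ge_atTop 3,
    tendsto_log_nat.eventually_ge_atTop 1] with n h1 h2 h3 h4
  intro h hh1 hh2
  have hn0 : (3 : ℝ) ≤ (n : ℝ) := by exact_mod_cast h3
  have hnh : ((n + h : ℕ) : ℝ) ≤ (n : ℝ) ^ 2 := by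
    push_cast
    nlinarith
  have hnh0 : (1 : ℝ) < ((n + h : ℕ) : ℝ) := by
    push_cast
    have : (0 : ℝ) ≤ (h : ℝ) := Nat.cast_nonneg h
    linarith
  have hv : Real.log ((n + h : ℕ) : ℝ) ≤ 2 * Real.log n := by
    calc Real.log ((n + h : ℕ) : ℝ) ≤ Real.log ((n : ℝ) ^ 2) :=
          Real.log_le_log (by linarith) hnh
      _ = 2 * Real.log n := by rw [Real.log_pow]; norm_num
  have hv1 : 1 ≤ Real.log ((n + h : ℕ) : ℝ) := by
    refine h4.trans (Real.log_le_log (by linarith) ?_)
    push_cast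
    have : (0 : ℝ) ≤ (h : ℝ) := Nat.cast_nonneg h
    linarith
  set K : ℕ := ⌊Real.log (Real.log ((n + h : ℕ) : ℝ))⌋₊ with hKdef
  have hK : ∀ m ∈ Ioc n (n + h), T m ≤ K := by
    intro m hm
    obtain ⟨hm1, hm2⟩ := Finset.mem_Ioc.1 hm
    rcases hT.le m (by omega) with h5 | h5
    · refine Nat.le_floor (h5.trans ?_)
      have h6 : (3 : ℝ) ≤ (m : ℝ) := by exact_mod_cast (by omega : 3 ≤ m)
      have h7 : Real.log (m : ℝ) ≤ Real.log ((n + h : ℕ) : ℝ) :=
        Real.log_le_log (by linarith) (by exact_mod_cast hm2)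
      exact Real.log_le_log (Real.log_pos (by linarith)) h7
    · rw [h5]; exact Nat.zero_le _
  refine (win_sum T hT n h h3 (by linarith) K hK).trans ?_
  apply div_le_div_of_nonneg_right _ (by linarith)
  have h5 : (4 : ℝ) ^ K ≤ (2 * Real.log n) ^ (7 / 5 : ℝ) := by
    have h6 : (K : ℝ) ≤ Real.log (Real.log ((n + h : ℕ) : ℝ)) :=
      Nat.floor_le (Real.log_nonneg hv1)
    have h7 : (4 : ℝ) ^ K = Real.exp (Real.log 4 * K) := by
      rw [mul_comm, Real.exp_nat_mul, Real.exp_log (by norm_num)]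
    have h8 : Real.log 4 ≤ 7 / 5 := by
      have h9 : Real.log 4 = 2 * Real.log 2 := by
        rw [show (4 : ℝ) = 2 ^ 2 by norm_num, Real.log_pow]; norm_num
      rw [h9]
      have := Real.log_two_lt_d9
      linarith
    have h9 : (2 * Real.log n) ^ (7 / 5 : ℝ)
        = Real.exp (Real.log (2 * Real.log n) * (7 / 5)) :=
      Real.rpow_def_of_pos (by linarith) _
    rw [h7, h9]
    apply Real.exp_le_exp.2
    have h10 : Real.log (Real.log ((n + h : ℕ) : ℝ)) ≤ Real.log (2 * Real.log n) :=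
      Real.log_le_log (by linarith) hv
    have h11 : (0 : ℝ) ≤ (K : ℝ) := Nat.cast_nonneg K
    calc Real.log 4 * K ≤ (7 / 5) * K := mul_le_mul_of_nonneg_right h8 h11
      _ ≤ (7 / 5) * Real.log (2 * Real.log n) :=
          mul_le_mul_of_nonneg_left (h6.trans h10) (by norm_num)
      _ = _ := by ring
  linarith

theorem sq_div_log_mono {u v : ℝ} (hu : 2 ≤ u) (huv : u ≤ v) :
    u ^ 2 / Real.log u ≤ v ^ 2 / Real.log v := by
  have hlu : Real.log 2 ≤ Real.log u := Real.log_le_log (by norm_num) hu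
  have hl2 := Real.log_two_gt_d9
  have hlu0 : 0 < Real.log u := by linarith
  have hlv0 : 0 < Real.log v := Real.log_pos (by linarith)
  rw [div_le_div_iff₀ hlu0 hlv0]
  have h1 : Real.log v ≤ Real.log u + (v / u - 1) := by
    have h2 : Real.log v = Real.log u + Real.log (v / u) := by
      rw [Real.log_div (by linarith) (by linarith)]; ring
    have h3 : Real.log (v / u) ≤ v / u - 1 := Real.log_le_sub_one_of_pos
      (div_pos (by linarith) (by linarith))
    linarith
  have h4 : u ^ 2 * Real.log v ≤ u ^ 2 * Real.log u + u * (v - u) := by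
    have h5 := mul_le_mul_of_nonneg_left h1 (sq_nonneg u)
    have h6 : u ^ 2 * (Real.log u + (v / u - 1)) = u ^ 2 * Real.log u + u * (v - u) := by
      have : u ≠ 0 := by linarith
      field_simp
    linarith
  have h7 : u * (v - u) ≤ (v ^ 2 - u ^ 2) * Real.log u := by
    have h8 : (v ^ 2 - u ^ 2) * Real.log u = (v - u) * ((v + u) * Real.log u) := by ring
    rw [h8, mul_comm u]
    refine mul_le_mul_of_nonneg_left ?_ (by linarith)
    nlinarith
  linarith

open Classical in
/-- CONVERSE: power saving in the asymptotics of the tuples forces gaps of order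
`log² / log log`. -/
theorem converse_gen (p : ℕ → ℝ) (C₁ : ℝ) (hp : ∀ᶠ n : ℕ in atTop, 0 ≤ p n ∧ p n ≤ 1 / 2)
    (hwin : WinBound p C₁) (A : Set ℕ) (hA : A.Infinite)
    (h : ∃ c : ℝ, 0 < c ∧ ∃ C : ℝ, ∀ x : ℕ, 2 ≤ x → ∀ H : Finset ℕ, (∀ h ∈ H, h ≤ x) →
      |(tuples A H 1 0 x : ℝ) - mainT p H 1 0 x| ≤ C * (x : ℝ) ^ (1 - c)) :
    ∃ d : ℝ, 0 < d ∧ ∃ᶠ k : ℕ in atTop,
      d * (Real.log (Nat.nth (· ∈ A) k : ℝ) ^ 2
        / Real.log (Real.log (Nat.nth (· ∈ A) k : ℝ)))
        ≤ (Nat.nth (· ∈ A) (k + 1) : ℝ) - (Nat.nth (· ∈ A) k : ℝ) := by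
  obtain ⟨c, hc, C, hC⟩ := h
  have hlogsq : ∀ᶠ n : ℕ in atTop, Real.log n ^ 2 ≤ (n : ℝ) := by
    have h1 : (fun x : ℝ => Real.log x ^ 2) =o[atTop] fun x : ℝ => x := by
      have := isLittleO_log_rpow_rpow_atTop 2 (show (0 : ℝ) < 1 by norm_num)
      simpa using this
    have h2 := h1.bound (show (0 : ℝ) < 1 by norm_num)
    have h3 := tendsto_natCast_atTop_atTop (R := ℝ) |>.eventually h2
    filter_upwards [h3] with n h4
    simp only [Real.norm_eq_abs, one_mul] at h4
    rw [abs_of_nonneg (by positivity), abs_of_nonneg (by positivity)] at h4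
    exact h4
  have htup : Tuples A p c C := by
    filter_upwards [hlogsq, eventually_ge_atTop 2] with x hx hx2
    intro H hH _
    have h1 := hC x hx2 H (fun j hj => by
      have := (hH j hj).2.trans hx
      exact_mod_cast this)
    have h2 : Icc 1 x = Ioc 0 x := by
      ext n; simp only [Finset.mem_Icc, Finset.mem_Ioc]; omega
    have h3 : (tuples A H 1 0 x : ℝ)
        = (((Ioc 0 x).filter (fun n => ∀ j ∈ H, n + j ∈ A)).card : ℝ) := by
      unfold tuples
      rw [h2]
      congr 2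
      ext n
      simp [Nat.modEq_one]
    have h4 : mainT p H 1 0 x = ∑ n ∈ Ioc 0 x, ∏ j ∈ H, p (n + j) := by
      unfold mainT
      rw [h2, Finset.filter_true_of_mem]
      intro n _
      exact Nat.modEq_one
    rw [h3, h4] at h1
    exact h1
  obtain ⟨δ, hδ, hmain⟩ := main A p c C C₁ hc hp hwin htup
  refine ⟨δ, hδ, ?_⟩
  rw [frequently_atTop]
  intro N
  have hnth : Tendsto (fun n => Nat.nth (· ∈ A) n) atTop atTop :=
    (Nat.nth_strictMono (p := (· ∈ A)) hA).tendsto_atTop
  -- a large index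
  obtain ⟨N₁, hN₁⟩ := eventually_atTop.1
    ((hnth.eventually (tendsto_log_nat.eventually_ge_atTop 2)))
  set N₂ := max N N₁ + 1 with hN₂
  have hsq : Tendsto Nat.sqrt atTop atTop := by
    rw [tendsto_atTop]
    intro b
    filter_upwards [eventually_ge_atTop (b * b)] with x hx
    exact Nat.le_sqrt.2 hx
  obtain ⟨x, hx1, hx2, hx3⟩ := (hmain.and ((hsq.eventually_ge_atTop (Nat.nth (· ∈ A) N₂)).and
    (eventually_ge_atTop 1))).exists
  obtain ⟨m, hm1, hm2, hm3⟩ := hx1
  set k := Nat.count (· ∈ A) (m + 1) with hk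
  have hk1 : m + 1 ≤ Nat.nth (· ∈ A) k := Nat.le_nth_count (p := (· ∈ A)) hA (m + 1)
  have hkN : N₂ < k := by
    rw [hk, Nat.lt_nth_iff_count_lt (p := (· ∈ A)) hA]
    omega
  obtain ⟨l, hkl⟩ : ∃ l, k = l + 1 := ⟨k - 1, by omega⟩
  rw [hkl] at hk hk1 hkN
  have hl1 : Nat.nth (· ∈ A) l < m + 1 := by
    rw [← Nat.lt_nth_iff_count_lt (p := (· ∈ A)) hA]
    omega
  refine ⟨l, by omega, ?_⟩
  have hlN : N₁ ≤ l := by omega
  have hlogb : 2 ≤ Real.log (Nat.nth (· ∈ A) l : ℝ) := hN₁ l hlN
  have hb0 : (0 : ℝ) < (Nat.nth (· ∈ A) l : ℝ) := by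
    by_contra hcon
    push Not at hcon
    have h0 : (Nat.nth (· ∈ A) l : ℝ) = 0 := le_antisymm hcon (Nat.cast_nonneg _)
    rw [h0, Real.log_zero] at hlogb
    linarith
  have hlogx : Real.log (Nat.nth (· ∈ A) l : ℝ) ≤ Real.log (x : ℝ) := by
    apply Real.log_le_log hb0
    have : Nat.nth (· ∈ A) l ≤ x := by omega
    exact_mod_cast this
  have hW := sq_div_log_mono hlogb hlogx
  set W : ℝ := δ * Real.log x ^ 2 / Real.log (Real.log x) with hWdef
  have hW2 : δ * (Real.log (Nat.nth (· ∈ A) l : ℝ) ^ 2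
        / Real.log (Real.log (Nat.nth (· ∈ A) l : ℝ))) ≤ W := by
    have := mul_le_mul_of_nonneg_left hW hδ.le
    rw [hWdef, mul_div_assoc]
    exact this
  refine hW2.trans ?_
  by_contra hcon
  push Not at hcon
  set b' := Nat.nth (· ∈ A) (l + 1) with hb'
  have hb'A : b' ∈ A := Nat.nth_mem_of_infinite (p := (· ∈ A)) hA _
  have hj1 : 1 ≤ b' - m := by omega
  have hj2 : ((b' - m : ℕ) : ℝ) ≤ W := by
    rw [Nat.cast_sub (by omega)]
    have h5 : (Nat.nth (· ∈ A) l : ℝ) ≤ (m : ℝ) := by exact_mod_cast Nat.lt_succ_iff.1 hl1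
    linarith
  have h6 := hm3 (b' - m) hj1 hj2
  have h7 : m + (b' - m) = b' := by omega
  rw [h7] at h6
  exact h6 hb'A

end Pool.CI63
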