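import Pool.Agent.LibCI.Gap

/-! The sets with the tuple asymptotics are infinite. -/

set_option autoImplicit false

namespace Pool.CI63

open Finset Filter
open Pool.Agent.LibBar93 (tuples mainT)

theorem vee_le_one (t : ℕ) : vee t ≤ 1 := by
  unfold vee
  refine Finset.prod_le_one (fun q hq => ?_) (fun q hq => ?_)
  · have h1 : 1 < q := (Finset.mem_filter.1 hq).2.one_lt
    have h2 : (1 : ℝ) < q := by exact_mod_cast h1
    have h3 : 1 / (q : ℝ) < 1 := by
      rw [div_lt_one (by linarith)]; exact h2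
    linarith
  · have : (0 : ℝ) ≤ 1 / (q : ℝ) := by positivity
    linarith

theorem prim_dvd {s t : ℕ} (h : s ≤ t) : prim s ∣ prim t := by
  unfold prim
  exact Finset.prod_dvd_prod_of_subset _ _ _
    (Finset.filter_subset_filter _ (Finset.range_subset_range.2 (by omega)))

theorem pow_K_le {v : ℝ} (hv : 1 ≤ v) : (4 : ℝ) ^ ⌊Real.log v⌋₊ ≤ v ^ (7 / 5 : ℝ) := by
  have h6 : ((⌊Real.log v⌋₊ : ℕ) : ℝ) ≤ Real.log v := Nat.floor_le (Real.log_nonneg hv)
  have h7 : (4 : ℝ) ^ ⌊Real.log v⌋₊ = Real.exp (Real.log 4 * (⌊Real.log v⌋₊ : ℕ)) := by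
    rw [mul_comm, Real.exp_nat_mul, Real.exp_log (by norm_num)]
  have h8 : Real.log 4 ≤ 7 / 5 := by
    have h9 : Real.log 4 = 2 * Real.log 2 := by
      rw [show (4 : ℝ) = 2 ^ 2 by norm_num, Real.log_pow]; norm_num
    rw [h9]
    have := Real.log_two_lt_d9
    linarith
  rw [h7, Real.rpow_def_of_pos (by linarith)]
  apply Real.exp_le_exp.2
  have h11 : (0 : ℝ) ≤ ((⌊Real.log v⌋₊ : ℕ) : ℝ) := Nat.cast_nonneg _
  calc Real.log 4 * ((⌊Real.log v⌋₊ : ℕ) : ℝ) ≤ (7 / 5) * ((⌊Real.log v⌋₊ : ℕ) : ℝ) :=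
        mul_le_mul_of_nonneg_right h8 h11
    _ ≤ (7 / 5) * Real.log v := mul_le_mul_of_nonneg_left h6 (by norm_num)
    _ = _ := by ring

/-- lower bound for the number of the elements -/
theorem main_lower (T : ℕ → ℕ) (hT : Slow T) (x : ℕ) (hx : 16 ≤ x) :
    ((x : ℝ) / (Real.log x) ^ (7 / 5 : ℝ) - 2) / Real.log x
      ≤ ∑ n ∈ Ioc 0 x, wden T n := by
  set K : ℕ := ⌊Real.log (Real.log (x : ℝ))⌋₊ with hK
  set Q := prim K with hQ
  have hx0 : (16 : ℝ) ≤ (x : ℝ) := by exact_mod_cast hx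
  have hlogx : 1 ≤ Real.log (x : ℝ) := by
    rw [Real.le_log_iff_exp_le (by linarith)]
    have := Real.exp_one_lt_d9
    linarith
  have hQ0 : 0 < Q := prim_pos K
  have hQr : (0 : ℝ) < (Q : ℝ) := by exact_mod_cast hQ0
  have hQle : (Q : ℝ) ≤ (Real.log x) ^ (7 / 5 : ℝ) := by
    have h1 : (Q : ℝ) ≤ (4 : ℝ) ^ K := by exact_mod_cast prim_le K
    exact h1.trans (pow_K_le hlogx)
  have hTK : ∀ m, 3 ≤ m → m ≤ x → T m ≤ K := by
    intro m hm1 hm2
    rcases hT.le m hm1 with h5 | h5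
    · refine Nat.le_floor (h5.trans ?_)
      have h6 : (3 : ℝ) ≤ (m : ℝ) := by exact_mod_cast hm1
      have h7 : Real.log (m : ℝ) ≤ Real.log (x : ℝ) :=
        Real.log_le_log (by linarith) (by exact_mod_cast hm2)
      exact Real.log_le_log (Real.log_pos (by linarith)) h7
    · rw [h5]; exact Nat.zero_le _
  -- the integers `1 + Q (i + 2)`
  let f : ℕ → ℕ := fun i => 1 + Q * (i + 2)
  have hf : Function.Injective f := by
    intro i j hij
    change 1 + Q * (i + 2) = 1 + Q * (j + 2) at hij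
    have h1 : Q * (i + 2) = Q * (j + 2) := by omega
    have h2 := Nat.eq_of_mul_eq_mul_left hQ0 h1
    omega
  set R : ℕ := (x - 1) / Q - 1 with hR
  have hsub : (range R).image f ⊆ Ioc 0 x := by
    intro n hn
    obtain ⟨i, hi, rfl⟩ := Finset.mem_image.1 hn
    have h1 : i < R := Finset.mem_range.1 hi
    refine Finset.mem_Ioc.2 ⟨by change 0 < 1 + Q * (i + 2); omega, ?_⟩
    change 1 + Q * (i + 2) ≤ x
    have h2 : i + 2 ≤ (x - 1) / Q := by omega
    have h3 : Q * (i + 2) ≤ x - 1 := by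
      calc Q * (i + 2) ≤ Q * ((x - 1) / Q) := Nat.mul_le_mul_left _ h2
        _ ≤ x - 1 := Nat.mul_div_le _ _
    omega
  have h1 : ∑ n ∈ (range R).image f, wden T n
      ≤ ∑ n ∈ Ioc 0 x, wden T n :=
    Finset.sum_le_sum_of_subset_of_nonneg hsub (fun n _ _ => dens_nonneg T n)
  refine le_trans ?_ h1
  rw [Finset.sum_image (fun i _ j _ hij => hf hij)]
  have h2 : ∀ i ∈ range R, 1 / Real.log (x : ℝ) ≤ wden T (f i) := by
    intro i hi
    have h3 := Finset.mem_Ioc.1 (hsub (Finset.mem_image_of_mem f hi))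
    have h4 : 3 ≤ f i := by
      change 3 ≤ 1 + Q * (i + 2)
      nlinarith
    have h5 : Nat.Coprime (f i) (prim (T (f i))) := by
      have h6 : Nat.Coprime (f i) Q := by
        change Nat.Coprime (1 + Q * (i + 2)) Q
        simp
      exact h6.coprime_dvd_right (prim_dvd (hTK _ h4 h3.2))
    unfold wden
    rw [if_pos h5]
    have h7 : (3 : ℝ) ≤ (f i : ℝ) := by exact_mod_cast h4
    have h8 : 0 < Real.log (f i : ℝ) := Real.log_pos (by linarith)
    have h9 : Real.log (f i : ℝ) ≤ Real.log (x : ℝ) :=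
      Real.log_le_log (by linarith) (by exact_mod_cast h3.2)
    apply one_div_le_one_div_of_le (mul_pos (vee_pos _) h8)
    calc vee (T (f i)) * Real.log (f i : ℝ) ≤ 1 * Real.log (f i : ℝ) :=
          mul_le_mul_of_nonneg_right (vee_le_one _) h8.le
      _ ≤ Real.log (x : ℝ) := by rw [one_mul]; exact h9
  have h3 := Finset.card_nsmul_le_sum _ _ _ h2
  rw [nsmul_eq_mul, Finset.card_range] at h3
  refine le_trans ?_ h3
  rw [mul_one_div]
  apply div_le_div_of_nonneg_right _ (by linarith)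
  have h4 : (x : ℝ) / (Real.log x) ^ (7 / 5 : ℝ) ≤ (x : ℝ) / Q :=
    div_le_div_of_nonneg_left (by linarith) hQr hQle
  have h5 : (x : ℝ) / Q ≤ (((x - 1) / Q : ℕ) : ℝ) + 1 := by
    have h6 : x ≤ Q * ((x - 1) / Q + 1) := by
      have := Nat.lt_mul_div_succ (x - 1) hQ0
      omega
    have h7 : (x : ℝ) ≤ Q * ((((x - 1) / Q : ℕ) : ℝ) + 1) := by exact_mod_cast h6
    rw [div_le_iff₀ hQr]
    linarith
  have h6 : (((x - 1) / Q : ℕ) : ℝ) ≤ (R : ℝ) + 1 := by
    have : (x - 1) / Q ≤ R + 1 := by omega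
    exact_mod_cast this
  linarith

theorem infinite_of_tuples (p : ℕ → ℝ) (T : ℕ → ℕ) (hT : Slow T)
    (hpT : ∀ n, 8 ≤ n → p n = wden T n) (hp0 : ∀ n, 0 ≤ p n) (A : Set ℕ)
    (h : ∃ c : ℝ, 0 < c ∧ ∃ C : ℝ, ∀ x : ℕ, 2 ≤ x → ∀ H : Finset ℕ, (∀ h ∈ H, h ≤ x) →
      |(tuples A H 1 0 x : ℝ) - mainT p H 1 0 x| ≤ C * (x : ℝ) ^ (1 - c)) : A.Infinite := by
  classical
  by_contra hfin
  rw [Set.not_infinite] at hfin
  obtain ⟨c, hc, C, hC⟩ := h
  set c' : ℝ := min c 1 with hc'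
  have hc'0 : 0 < c' := lt_min hc one_pos
  have hc'1 : c' ≤ 1 := min_le_right _ _
  have hc'c : c' ≤ c := min_le_left _ _
  set S : ℝ := ∑ n ∈ Ioc 0 7, wden T n with hS
  set N : ℝ := (hfin.toFinset.card : ℝ) + |S| with hN
  have hN0 : 0 ≤ N := add_nonneg (Nat.cast_nonneg _) (abs_nonneg _)
  have key : ∀ x : ℕ, 16 ≤ x → ((x : ℝ) / (Real.log x) ^ (7 / 5 : ℝ) - 2) / Real.log x
      ≤ N + |C| * (x : ℝ) ^ (1 - c') := by
    intro x hx
    have hx1 : (1 : ℝ) ≤ (x : ℝ) := by exact_mod_cast (by omega : 1 ≤ x)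
    have h1 := hC x (by omega) {0} (by simp)
    have h2 : Icc 1 x = Ioc 0 x := by
      ext n; simp only [Finset.mem_Icc, Finset.mem_Ioc]; omega
    have h3 : (tuples A {0} 1 0 x : ℝ) ≤ (hfin.toFinset.card : ℝ) := by
      unfold tuples
      have : ((Icc 1 x).filter (fun n => n ≡ 0 [MOD 1] ∧ ∀ h ∈ ({0} : Finset ℕ), n + h ∈ A)).card
          ≤ hfin.toFinset.card := by
        refine Finset.card_le_card (fun n hn => ?_)
        have h4 := (Finset.mem_filter.1 hn).2.2 0 (by simp)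
        rw [Set.Finite.mem_toFinset]
        simpa using h4
      exact_mod_cast this
    have h4 : mainT p {0} 1 0 x = ∑ n ∈ Ioc 0 x, p n := by
      unfold mainT
      rw [h2, Finset.filter_true_of_mem]
      · simp
      · intro n _
        exact Nat.modEq_one
    have h41 : ∑ n ∈ Ioc 0 x, wden T n - |S| ≤ ∑ n ∈ Ioc 0 x, p n := by
      have e0 : Ioc 0 x = Ioc 0 7 ∪ Ioc 7 x :=
        (Finset.Ioc_union_Ioc_eq_Ioc (by omega) (by omega)).symm
      have e1 : Disjoint (Ioc 0 7) (Ioc 7 x) := by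
        rw [Finset.disjoint_left]
        intro n hn hn'
        rw [Finset.mem_Ioc] at hn hn'
        omega
      rw [e0, Finset.sum_union e1, Finset.sum_union e1]
      have e2 : ∑ n ∈ Ioc 7 x, p n = ∑ n ∈ Ioc 7 x, wden T n :=
        Finset.sum_congr rfl (fun n hn => hpT n (by
          have := (Finset.mem_Ioc.1 hn).1; omega))
      have e3 : 0 ≤ ∑ n ∈ Ioc 0 7, p n := Finset.sum_nonneg (fun n _ => hp0 n)
      have e4 : S ≤ |S| := le_abs_self S
      rw [e2, ← hS]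
      linarith
    have h5 := main_lower T hT x hx
    have h6 := (abs_le.1 h1).1
    rw [h4] at h6
    have h7 : C * (x : ℝ) ^ (1 - c) ≤ |C| * (x : ℝ) ^ (1 - c') := by
      calc C * (x : ℝ) ^ (1 - c) ≤ |C| * (x : ℝ) ^ (1 - c) :=
            mul_le_mul_of_nonneg_right (le_abs_self C) (by positivity)
        _ ≤ |C| * (x : ℝ) ^ (1 - c') :=
            mul_le_mul_of_nonneg_left
              (Real.rpow_le_rpow_of_exponent_le hx1 (by linarith)) (abs_nonneg C)
    rw [hN]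
    linarith
  -- contradiction for large `x`
  have e1 : ∀ᶠ x : ℝ in atTop, (Real.log x) ^ (12 / 5 : ℝ) ≤ (1 / 2) * x ^ (c' / 2) := by
    have h2 := (isLittleO_log_rpow_rpow_atTop (12 / 5 : ℝ) (half_pos hc'0)).bound
      (show (0 : ℝ) < 1 / 2 by norm_num)
    filter_upwards [h2, eventually_ge_atTop (1 : ℝ)] with x h3 h4
    have h5 : 0 ≤ (Real.log x) ^ (12 / 5 : ℝ) := Real.rpow_nonneg (Real.log_nonneg h4) _
    rw [Real.norm_of_nonneg h5, Real.norm_of_nonneg (by positivity)] at h3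
    exact h3
  have e2 : ∀ᶠ x : ℝ in atTop, N + |C| + 1 + 2 ≤ x ^ (c' / 2) :=
    (tendsto_rpow_atTop (half_pos hc'0)).eventually_ge_atTop _
  have e3 : ∀ᶠ x : ℝ in atTop, 2 ≤ Real.log x := Real.tendsto_log_atTop.eventually_ge_atTop 2
  obtain ⟨x, ⟨hx1, hx2, hx3⟩, hx4⟩ := (((tendsto_natCast_atTop_atTop (R := ℝ)).eventually
    (e1.and (e2.and e3))).and (eventually_ge_atTop 16)).exists
  have h1 := key x hx4
  have hx0 : (0 : ℝ) < (x : ℝ) := by
    have : 0 < x := by omega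
    exact_mod_cast this
  have hxge : (1 : ℝ) ≤ (x : ℝ) := by exact_mod_cast (by omega : 1 ≤ x)
  have hl0 : 0 < Real.log (x : ℝ) := by linarith
  have hl75 : 0 < (Real.log (x : ℝ)) ^ (7 / 5 : ℝ) := Real.rpow_pos_of_pos hl0 _
  set X := (x : ℝ) ^ (c' / 2) with hX
  have hX0 : 0 < X := Real.rpow_pos_of_pos hx0 _
  have h2 : (x : ℝ) / (Real.log x) ^ (7 / 5 : ℝ) / Real.log x
      = x / (Real.log x) ^ (12 / 5 : ℝ) := by
    rw [div_div]
    congr 1
    nth_rewrite 2 [← Real.rpow_one (Real.log (x : ℝ))]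
    rw [← Real.rpow_add hl0]
    norm_num
  have h3 : 2 * (x : ℝ) ^ (1 - c' / 2) ≤ x / (Real.log x) ^ (12 / 5 : ℝ) := by
    rw [le_div_iff₀ (Real.rpow_pos_of_pos hl0 _)]
    have h4 : (x : ℝ) ^ (1 - c' / 2) * X = x := by
      rw [hX, ← Real.rpow_add hx0]; simp
    have h5 : 0 ≤ (x : ℝ) ^ (1 - c' / 2) := by positivity
    calc 2 * (x : ℝ) ^ (1 - c' / 2) * Real.log x ^ (12 / 5 : ℝ)
        ≤ 2 * (x : ℝ) ^ (1 - c' / 2) * ((1 / 2) * X) :=
          mul_le_mul_of_nonneg_left hx1 (by positivity)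
      _ = (x : ℝ) ^ (1 - c' / 2) * X := by ring
      _ = x := h4
  have h4 : (x : ℝ) ^ (1 - c' / 2) = X * (x : ℝ) ^ (1 - c') := by
    rw [hX, ← Real.rpow_add hx0]; congr 1; ring
  have h5 : 1 ≤ (x : ℝ) ^ (1 - c') := Real.one_le_rpow hxge (by linarith)
  have h6 : 2 / Real.log (x : ℝ) ≤ 1 := by
    rw [div_le_one hl0]; exact hx3
  rw [sub_div, h2] at h1
  have h7 : (N + |C| + 1 + 2) * (x : ℝ) ^ (1 - c') ≤ (x : ℝ) ^ (1 - c' / 2) := by
    rw [h4]
    exact mul_le_mul_of_nonneg_right hx2 (by positivity)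
  have h8 : N ≤ N * (x : ℝ) ^ (1 - c') := le_mul_of_one_le_right hN0 h5
  have h9 : 0 ≤ (x : ℝ) ^ (1 - c' / 2) := by positivity
  nlinarith [abs_nonneg C]


/-! ### the density of helper93 -/

theorem slow_sieveLim : Slow Pool.Agent.LibBar93.sieveLim where
  mono := by
    intro a b hab
    unfold Pool.Agent.LibBar93.sieveLim
    exact Nat.div_le_div_right (Nat.log_mono_right (Nat.log_mono_right hab))
  le := by
    intro n hn
    by_cases h0 : Pool.Agent.LibBar93.sieveLim n = 0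
    · exact Or.inr h0
    · left
      set t := Pool.Agent.LibBar93.sieveLim n with ht
      have h1 : 4 * t ≤ Nat.log 2 (Nat.log 2 n) := by
        rw [ht]; unfold Pool.Agent.LibBar93.sieveLim; omega
      have hl0 : Nat.log 2 n ≠ 0 := by
        have : 1 ≤ Nat.log 2 n := Nat.le_log_of_pow_le (by norm_num) (by omega)
        omega
      have h2 : 2 ^ (4 * t) ≤ Nat.log 2 n := Nat.pow_le_of_le_log hl0 h1
      have h3 : 2 ^ Nat.log 2 n ≤ n := Nat.pow_log_le_self 2 (by omega)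
      have h4 : (Nat.log 2 n : ℝ) * Real.log 2 ≤ Real.log n := by
        have h5 : ((2 : ℝ) ^ Nat.log 2 n) ≤ (n : ℝ) := by exact_mod_cast h3
        have h6 := Real.log_le_log (by positivity) h5
        rwa [Real.log_pow] at h6
      have hl2 := Real.log_two_gt_d9
      have h7 : (16 : ℝ) ^ t * Real.log 2 ≤ Real.log n := by
        have h8 : (16 : ℝ) ^ t ≤ (Nat.log 2 n : ℝ) := by
          have h9 : ((2 ^ (4 * t) : ℕ) : ℝ) ≤ (Nat.log 2 n : ℝ) := by exact_mod_cast h2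
          push_cast at h9
          rw [pow_mul] at h9
          norm_num at h9
          exact h9
        calc (16 : ℝ) ^ t * Real.log 2 ≤ (Nat.log 2 n : ℝ) * Real.log 2 :=
              mul_le_mul_of_nonneg_right h8 (by linarith)
          _ ≤ _ := h4
      rw [Real.le_log_iff_exp_le (by
        have : (0 : ℝ) < (16 : ℝ) ^ t * Real.log 2 := by positivity
        linarith)]
      refine le_trans ?_ h7
      have ht1 : 1 ≤ t := Nat.one_le_iff_ne_zero.2 h0
      have h10 : Real.exp (t : ℝ) ≤ (3 : ℝ) ^ t := by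
        have h11 : Real.exp (t : ℝ) = Real.exp 1 ^ t := by rw [← Real.exp_nat_mul]; simp
        rw [h11]
        have := Real.exp_one_lt_d9
        exact pow_le_pow_left₀ (Real.exp_pos 1).le (by linarith) t
      have h12 : (3 : ℝ) ^ t * 2 ≤ (16 : ℝ) ^ t := by
        have h13 : (16 : ℝ) ^ t = 3 ^ t * (16 / 3) ^ t := by rw [← mul_pow]; norm_num
        rw [h13]
        refine mul_le_mul_of_nonneg_left ?_ (by positivity)
        calc (2 : ℝ) ≤ (16 / 3 : ℝ) ^ 1 := by norm_num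
          _ ≤ (16 / 3 : ℝ) ^ t := pow_le_pow_right₀ (by norm_num) ht1
      have h14 : (0 : ℝ) < (3 : ℝ) ^ t := by positivity
      nlinarith

theorem dens_eq (n : ℕ) (hn : 8 ≤ n) :
    Pool.Agent.LibBar93.dens n = wden Pool.Agent.LibBar93.sieveLim n := by
  unfold Pool.Agent.LibBar93.dens wden
  have h1 : primorial (Pool.Agent.LibBar93.sieveLim n) = prim (Pool.Agent.LibBar93.sieveLim n) := rfl
  have h2 : Pool.Agent.LibBar93.euler (Pool.Agent.LibBar93.sieveLim n)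
      = vee (Pool.Agent.LibBar93.sieveLim n) := rfl
  rw [h1, h2]
  by_cases h : n.Coprime (prim (Pool.Agent.LibBar93.sieveLim n))
  · rw [if_pos ⟨hn, h⟩, if_pos h]
    rw [one_div, mul_inv, div_eq_mul_inv]
  · rw [if_neg (fun h' => h h'.2), if_neg h]

theorem dens93_nonneg (n : ℕ) : 0 ≤ Pool.Agent.LibBar93.dens n := by
  by_cases hn : 8 ≤ n
  · rw [dens_eq n hn]; exact dens_nonneg _ n
  · unfold Pool.Agent.LibBar93.dens
    rw [if_neg (fun h => hn h.1)]

theorem dens93_le : ∀ᶠ n : ℕ in atTop, 0 ≤ Pool.Agent.LibBar93.dens n ∧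
    Pool.Agent.LibBar93.dens n ≤ 1 / 2 := by
  filter_upwards [dens_le _ slow_sieveLim, eventually_ge_atTop 8] with n h1 h2
  rw [dens_eq n h2]
  exact h1

theorem winBound_congr (p p' : ℕ → ℝ) (C₁ : ℝ) (h : ∀ᶠ n : ℕ in atTop, p n = p' n)
    (hw : WinBound p C₁) : WinBound p' C₁ := by
  obtain ⟨n₀, hn₀⟩ := eventually_atTop.1 h
  filter_upwards [hw, eventually_ge_atTop n₀] with n h1 h2
  intro k hk1 hk2
  have h3 := h1 k hk1 hk2
  have h4 : ∑ j ∈ Icc 1 k, p' (n + j) = ∑ j ∈ Icc 1 k, p (n + j) :=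
    Finset.sum_congr rfl (fun j _ => (hn₀ (n + j) (by omega)).symm)
  rw [h4]
  exact h3

theorem winBound_dens93 : WinBound Pool.Agent.LibBar93.dens 2 := by
  refine winBound_congr _ _ 2 ?_ (winBound_dens _ slow_sieveLim)
  filter_upwards [eventually_ge_atTop 8] with n hn
  exact (dens_eq n hn).symm

/-- CONVERSE (final form): power saving in the asymptotics of the tuples forces gaps of order
`log² / log log`. -/
theorem converse93 (A : Set ℕ)
    (h : ∃ c : ℝ, 0 < c ∧ ∃ C : ℝ, ∀ x : ℕ, 2 ≤ x → ∀ H : Finset ℕ, (∀ h ∈ H, h ≤ x) →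
      |(tuples A H 1 0 x : ℝ) - mainT Pool.Agent.LibBar93.dens H 1 0 x|
        ≤ C * (x : ℝ) ^ (1 - c)) :
    A.Infinite ∧ ∃ d : ℝ, 0 < d ∧ ∃ᶠ k : ℕ in atTop,
      d * (Real.log (Nat.nth (· ∈ A) k : ℝ) ^ 2
        / Real.log (Real.log (Nat.nth (· ∈ A) k : ℝ)))
        ≤ (Nat.nth (· ∈ A) (k + 1) : ℝ) - (Nat.nth (· ∈ A) k : ℝ) := by
  have hA : A.Infinite := infinite_of_tuples _ _ slow_sieveLim dens_eq dens93_nonneg A h
  exact ⟨hA, converse_gen _ 2 dens93_le winBound_dens93 A hA h⟩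

/-- the flat weight `1 / log` -/
theorem winBound_flat (p : ℕ → ℝ) (hp : ∀ n : ℕ, 8 ≤ n → p n = 1 / Real.log n) :
    (∀ᶠ n : ℕ in atTop, 0 ≤ p n ∧ p n ≤ 1 / 2) ∧ WinBound p 2 := by
  have hz : Slow (fun _ => 0) := ⟨fun _ _ _ => le_rfl, fun _ _ => Or.inr rfl⟩
  have h1 : ∀ n : ℕ, 8 ≤ n → p n = wden (fun _ => 0) n := by
    intro n hn
    rw [hp n hn]
    unfold wden
    have h2 : prim 0 = 1 := by
      unfold prim
      have h : (Finset.range 1).filter Nat.Prime = ∅ := by decide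
      rw [h]; simp
    have h3 : vee 0 = 1 := by
      unfold vee
      have h : (Finset.range 1).filter Nat.Prime = ∅ := by decide
      rw [h]; simp
    rw [h2, h3]
    simp
  constructor
  · filter_upwards [dens_le _ hz, eventually_ge_atTop 8] with n h2 h3
    rw [h1 n h3]
    exact h2
  · refine winBound_congr _ _ 2 ?_ (winBound_dens _ hz)
    filter_upwards [eventually_ge_atTop 8] with n hn
    exact (h1 n hn).symm

end Pool.CI63
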